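import Pool.Agent.CDS.Stmts

set_option autoImplicit false

namespace Pool.Agent.CDS

open Finset

namespace ASSMX

lemma path_of_rw {V : Type} (D : V → V → Prop) (W : Finset V) {v b : V} (h : RW D W v b) :
    ∃ l : List V, l.getLast? = some b ∧ l.Nodup ∧ (∀ w ∈ l, w ∈ W) ∧
      List.IsChain D (v :: l) := by
  unfold RW at h
  induction h with
  | single h => exact ⟨[_], rfl, by simp, by simpa using h.2, by simpa using h.1⟩
  | @tail c b' _ h ih =>
    obtain ⟨l, h1, h2, h3, h4⟩ := ih
    by_cases hb : b' ∈ l
    · obtain ⟨l1, l2, rfl⟩ := List.append_of_mem hb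
      have e : l1 ++ b' :: l2 = (l1 ++ [b']) ++ l2 := by simp
      rw [e] at h2 h3 h4
      refine ⟨l1 ++ [b'], by simp, (List.nodup_append.1 h2).1,
        fun w hw => h3 w (List.mem_append_left _ hw), ?_⟩
      rw [← List.cons_append] at h4
      exact (List.isChain_append.1 h4).1
    · refine ⟨l ++ [b'], by simp, ?_, ?_, ?_⟩
      · rw [List.nodup_append]
        refine ⟨h2, by simp, ?_⟩
        intro a ha b hb' hab
        rw [List.mem_singleton] at hb'
        rw [hab, hb'] at ha
        exact hb ha
      · intro w hw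
        rw [List.mem_append, List.mem_singleton] at hw
        rcases hw with hw | rfl
        · exact h3 w hw
        · exact h.2
      · rw [← List.cons_append, List.isChain_append]
        refine ⟨h4, by simp, ?_⟩
        intro x hx y hy
        have hx' : (v :: l).getLast? = some c := by
          rw [List.getLast?_cons, h1]; rfl
        rw [hx'] at hx
        simp only [List.head?_cons, Option.mem_def, Option.some.injEq] at hx hy
        subst hx hy
        exact h.1

end ASSMX

open ASSMX in
theorem assm_proof : Stmt_ASSM := by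
  unfold Stmt_ASSM
  intro V _ _ D r S Z U b P hZS hZ hUS hUU hbU hRW hL
  classical
  let f : Fin r → V := fun x => ((Z.equivFinOfCardEq hZ).symm x : V)
  have hf : ∀ x, f x ∈ Z := fun x => ((Z.equivFinOfCardEq hZ).symm x).2
  have hfi : Function.Injective f := by
    intro x y hxy
    exact (Z.equivFinOfCardEq hZ).symm.injective (Subtype.ext hxy)
  have hfS : ∀ x, f x ∈ S := fun x => hZS (hf x)
  have hUT : ∀ c w, w ∈ U c → w ∉ S := fun c w hw hs =>
    (Finset.disjoint_left.1 (hUS c)) hw hs
  have main : ∀ x y : Fin r, ∃ (d : List V) (c : Fin r × Fin r) (l : List V),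
      P (f y) x = d ++ [b c] ∧ (∀ w ∈ d, w ∈ S ∧ w ∉ Z) ∧ d.Nodup ∧
      List.IsChain D (b c :: (d.reverse ++ [f y])) ∧ l.getLast? = some (b c) ∧ l.Nodup ∧
      (∀ w ∈ l, w ∈ U c) ∧ List.IsChain D (f x :: l) := by
    intro x y
    have hx := x.2
    have hne := hL.ne (f y) (hf y) x hx
    obtain ⟨d, t, hdt⟩ := (List.eq_nil_or_concat' (P (f y) x)).resolve_left hne
    have hlast := hL.last (f y) (hf y) x hx t (by rw [hdt]; simp)
    rw [Finset.mem_image] at hlast
    obtain ⟨c, -, hc⟩ := hlast
    obtain ⟨l, l1, l2, l3, l4⟩ := path_of_rw D (U c) (hRW c (f x))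
    refine ⟨d, c, l, by rw [hdt, hc], ?_, ?_, ?_, l1, l2, l3, l4⟩
    · intro w hw
      have h1 := hL.int (f y) (hf y) x hx w (by rw [hdt, List.dropLast_concat]; exact hw)
      have h2 := hL.sub (f y) (hf y) x hx w (by rw [hdt]; exact List.mem_append_left _ hw)
      rw [Finset.mem_union] at h2
      rcases h2 with h2 | h2
      · rw [Finset.mem_sdiff] at h2
        exact h2
      · exact absurd h2 h1
    · have h1 := hL.nodup (f y) (hf y) x hx
      rw [hdt] at h1
      exact (List.nodup_append.1 h1).1
    · have h1 := hL.chain (f y) (hf y) x hx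
      have h2 : List.IsChain D (f y :: P (f y) x).reverse := by
        rw [List.isChain_reverse]
        exact h1
      rw [hdt, ← hc] at h2
      simpa using h2
  choose d c l hP hd1 hd2 hd3 hl1 hl2 hl3 hl4 using main
  have hcP : ∀ x y : Fin r, b (c x y) ∈ P (f y) x := fun x y => by rw [hP]; simp
  have hdP : ∀ (x y : Fin r) (w : V), w ∈ d x y → w ∈ P (f y) x := fun x y w hw => by
    rw [hP]; exact List.mem_append_left _ hw
  have hdisj : ∀ x y x' y' : Fin r, (x, y) ≠ (x', y') → ∀ w, w ∈ P (f y) x →
      w ∉ P (f y') x' := by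
    intro x y x' y' hne w hw
    refine hL.disj (f y) (hf y) x x.2 (f y') (hf y') x' x'.2 ?_ w hw
    intro he
    apply hne
    rw [Prod.mk.injEq] at he
    rw [hfi he.1, Fin.ext he.2]
  refine ⟨f, hfi, fun x y => f x :: (l x y ++ ((d x y).reverse ++ [f y])), ?_, ?_⟩
  · intro x y hxy
    beta_reduce
    refine ⟨rfl, ?_, ?_, ?_, ?_, ?_⟩
    · have e : f x :: (l x y ++ ((d x y).reverse ++ [f y])) =
          (f x :: (l x y ++ (d x y).reverse)) ++ [f y] := by simp
      rw [e, List.getLast?_append]
      rfl
    · rw [List.nodup_cons, List.nodup_append, List.nodup_append]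
      refine ⟨?_, hl2 x y, ⟨List.nodup_reverse.2 (hd2 x y), by simp, ?_⟩, ?_⟩
      · intro hm
        rw [List.mem_append, List.mem_append, List.mem_reverse, List.mem_singleton] at hm
        rcases hm with hm | hm | hm
        · exact hUT _ _ (hl3 x y _ hm) (hfS x)
        · exact (hd1 x y _ hm).2 (hf x)
        · exact hxy (hfi hm)
      · intro a ha w hw haw
        rw [List.mem_singleton] at hw
        rw [List.mem_reverse] at ha
        rw [haw, hw] at ha
        exact (hd1 x y _ ha).2 (hf y)
      · intro a ha w hw haw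
        rw [List.mem_append, List.mem_reverse, List.mem_singleton] at hw
        rw [← haw] at hw
        have h1 := hUT _ _ (hl3 x y _ ha)
        rcases hw with hw | hw
        · exact h1 (hd1 x y _ hw).1
        · rw [hw] at h1
          exact h1 (hfS y)
    · simp only [List.length_cons, List.length_append, List.length_nil]
      omega
    · have e : f x :: (l x y ++ ((d x y).reverse ++ [f y])) =
          (f x :: l x y) ++ ((d x y).reverse ++ [f y]) := by simp
      have h1 := hd3 x y
      rw [List.isChain_cons] at h1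
      rw [e, List.isChain_append]
      refine ⟨hl4 x y, h1.2, ?_⟩
      intro u hu w hw
      have hu' : (f x :: l x y).getLast? = some (b (c x y)) := by
        rw [List.getLast?_cons, hl1]; rfl
      rw [hu', Option.mem_def, Option.some.injEq] at hu
      subst hu
      exact h1.1 w hw
    · intro u hu
      rw [List.mem_cons, List.mem_append, List.mem_append, List.mem_reverse,
        List.mem_singleton] at hu
      rcases hu with hu | hu | hu | hu
      · exact Or.inl (hfi hu)
      · exact absurd (hfS u) (hUT _ _ (hl3 x y _ hu))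
      · exact absurd (hf u) (hd1 x y _ hu).2
      · exact Or.inr (hfi hu)
  · intro x y x' y' hxy hxy' hne v hv hv'
    have hcases : ∀ x y : Fin r, v ∈ f x :: (l x y ++ ((d x y).reverse ++ [f y])) →
        (∃ u, f u = v) ∨ v ∈ l x y ∨ v ∈ d x y := by
      intro x y hv
      rw [List.mem_cons, List.mem_append, List.mem_append, List.mem_reverse,
        List.mem_singleton] at hv
      rcases hv with hv | hv | hv | hv
      · exact Or.inl ⟨x, hv.symm⟩
      · exact Or.inr (Or.inl hv)
      · exact Or.inr (Or.inr hv)
      · exact Or.inl ⟨y, hv.symm⟩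
    rcases hcases x y hv with h1 | h1
    · exact h1
    rcases hcases x' y' hv' with h2 | h2
    · exact h2
    exfalso
    have hcc : c x y ≠ c x' y' := by
      intro he
      have h3 := hcP x y
      rw [he] at h3
      exact hdisj x y x' y' hne _ h3 (hcP x' y')
    rcases h1 with h1 | h1 <;> rcases h2 with h2 | h2
    · exact (Finset.disjoint_left.1 (hUU _ _ hcc)) (hl3 x y v h1) (hl3 x' y' v h2)
    · exact hUT _ _ (hl3 x y v h1) (hd1 x' y' v h2).1
    · exact hUT _ _ (hl3 x' y' v h2) (hd1 x y v h1).1
    · exact hdisj x y x' y' hne v (hdP x y v h1) (hdP x' y' v h2)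

end Pool.Agent.CDS
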