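import Pool.Agent.CDS.Stmts

set_option autoImplicit false

namespace Pool.Agent.CDS

open Finset

namespace AsmAX

/-- numerical bound -/
theorem num_bound (r q : ℕ) (hr : 1 ≤ r) (hq : 1 ≤ q) :
    (((r ^ 2 + 1) * (q + 1)) *
      (q * (((r ^ 2 + r) + (64 * (r ^ 2 + r) * (r ^ 2 + r + 1) ^ 2) * q) + 1) +
        (r ^ 2 + 1) * (q + 1)) + ((r ^ 2 + r) + (64 * (r ^ 2 + r) * (r ^ 2 + r + 1) ^ 2) * q)) * q
      ≤ 8192 * r ^ 8 * q ^ 4 := by
  have h1 : r ^ 2 + r ≤ 2 * r ^ 2 := by nlinarith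
  have h2 : r ^ 2 + r + 1 ≤ 3 * r ^ 2 := by nlinarith
  have hΔ : 64 * (r ^ 2 + r) * (r ^ 2 + r + 1) ^ 2 ≤ 1152 * r ^ 6 := by
    calc 64 * (r ^ 2 + r) * (r ^ 2 + r + 1) ^ 2 ≤ 64 * (2 * r ^ 2) * (3 * r ^ 2) ^ 2 := by gcongr
      _ = 1152 * r ^ 6 := by ring
  have hr6 : r ^ 2 ≤ r ^ 6 := Nat.pow_le_pow_right hr (by norm_num)
  have hρ : (r ^ 2 + r) + (64 * (r ^ 2 + r) * (r ^ 2 + r + 1) ^ 2) * q ≤ 1154 * r ^ 6 * q := by
    calc (r ^ 2 + r) + (64 * (r ^ 2 + r) * (r ^ 2 + r + 1) ^ 2) * q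
        ≤ 2 * r ^ 6 * q + 1152 * r ^ 6 * q := by
          gcongr
          calc r ^ 2 + r ≤ 2 * r ^ 2 := h1
            _ ≤ 2 * r ^ 6 := by gcongr
            _ ≤ 2 * r ^ 6 * q := Nat.le_mul_of_pos_right _ hq
      _ = 1154 * r ^ 6 * q := by ring
  have hL : (r ^ 2 + 1) * (q + 1) ≤ 4 * r ^ 2 * q := by
    have h3 : r ^ 2 + 1 ≤ 2 * r ^ 2 := by nlinarith
    have h4 : q + 1 ≤ 2 * q := by omega
    calc (r ^ 2 + 1) * (q + 1) ≤ (2 * r ^ 2) * (2 * q) := Nat.mul_le_mul h3 h4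
      _ = 4 * r ^ 2 * q := by ring
  have hr1 : 1 ≤ r ^ 6 * q := Nat.one_le_iff_ne_zero.mpr (by positivity)
  have hinner : q * (((r ^ 2 + r) + (64 * (r ^ 2 + r) * (r ^ 2 + r + 1) ^ 2) * q) + 1) +
        (r ^ 2 + 1) * (q + 1) ≤ 1159 * r ^ 6 * q ^ 2 := by
    calc q * (((r ^ 2 + r) + (64 * (r ^ 2 + r) * (r ^ 2 + r + 1) ^ 2) * q) + 1) +
        (r ^ 2 + 1) * (q + 1)
        ≤ q * (1154 * r ^ 6 * q + r ^ 6 * q) + 4 * r ^ 2 * q := by gcongr
      _ ≤ q * (1154 * r ^ 6 * q + r ^ 6 * q) + 4 * r ^ 6 * q ^ 2 := by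
          gcongr
          nlinarith
      _ = 1159 * r ^ 6 * q ^ 2 := by ring
  calc (((r ^ 2 + 1) * (q + 1)) *
      (q * (((r ^ 2 + r) + (64 * (r ^ 2 + r) * (r ^ 2 + r + 1) ^ 2) * q) + 1) +
        (r ^ 2 + 1) * (q + 1)) + ((r ^ 2 + r) + (64 * (r ^ 2 + r) * (r ^ 2 + r + 1) ^ 2) * q)) * q
      ≤ ((4 * r ^ 2 * q) * (1159 * r ^ 6 * q ^ 2) + 1154 * r ^ 6 * q) * q := by gcongr
    _ ≤ ((4 * r ^ 2 * q) * (1159 * r ^ 6 * q ^ 2) + 1154 * r ^ 8 * q ^ 3) * q := by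
        have a1 : r ^ 6 ≤ r ^ 8 := Nat.pow_le_pow_right hr (by norm_num)
        have a2 : q ≤ q ^ 3 := by
          calc q = q ^ 1 := (pow_one q).symm
            _ ≤ q ^ 3 := Nat.pow_le_pow_right hq (by norm_num)
        gcongr
    _ = 5790 * r ^ 8 * q ^ 4 := by ring
    _ ≤ 8192 * r ^ 8 * q ^ 4 := by gcongr; norm_num

/-- transfer of subdivisions along an injective homomorphism -/
theorem sub_map {V' V V₂ : Type} {F : V' → V' → Prop} {D : V → V → Prop} {D₂ : V₂ → V₂ → Prop}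
    {lam : ℕ} (g : V → V₂) (hg : Function.Injective g) (hD : ∀ x y, D x y → D₂ (g x) (g y))
    (h : Sub F D lam) : Sub F D₂ lam := by
  obtain ⟨f, hf, P, h1, h2⟩ := h
  refine ⟨g ∘ f, hg.comp hf, fun a b => (P a b).map g, ?_, ?_⟩
  · intro a b hab
    obtain ⟨e1, e2, e3, e4, e5, e6⟩ := h1 a b hab
    refine ⟨?_, ?_, ?_, ?_, ?_, ?_⟩
    · simp [List.head?_map, e1]
    · simp [List.getLast?_map, e2]
    · exact e3.map hg
    · simpa using e4
    · rw [List.isChain_map]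
      exact e5.imp (fun x y hxy => hD x y hxy)
    · intro x hx
      simp only [List.mem_map, Function.comp_apply] at hx
      obtain ⟨y, hy, hyx⟩ := hx
      have := hg hyx
      subst this
      exact e6 x hy
  · intro a b c d hab hcd hne v hv hv'
    simp only [List.mem_map] at hv hv'
    obtain ⟨y, hy, rfl⟩ := hv
    obtain ⟨y', hy', hyy⟩ := hv'
    have := hg hyy
    subst this
    obtain ⟨x, hx⟩ := h2 a b c d hab hcd hne y' hy hy'
    exact ⟨x, by simp [hx]⟩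

theorem rw_mem {V : Type} {D : V → V → Prop} {W : Finset V} {v b : V} (h : RW D W v b) :
    b ∈ W := by
  unfold RW at h
  induction h with
  | single h => exact h.2
  | tail _ h _ => exact h.2

theorem rw_first {V : Type} {D : V → V → Prop} {W : Finset V} {v b : V} (h : RW D W v b) :
    ∃ u, D v u ∧ u ∈ W := by
  unfold RW at h
  induction h with
  | single h => exact ⟨_, h⟩
  | tail _ _ ih => exact ih

end AsmAX

open AsmAX

/-- the theorem for a robust digraph -/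
theorem robust_sub (hCORE : Stmt_CORE) (hPOT : Stmt_POT) (hGOOD : Stmt_GOOD) (hHALL : Stmt_HALL)
    (hORB : Stmt_ORB) (hLINK : Stmt_LINK) (hASSM : Stmt_ASSM)
    (V : Type) [Fintype V] [DecidableEq V] (D : V → V → Prop) (r q k Δ₁ ρ Δ : ℕ)
    (hV : Nonempty V) (hr : 1 ≤ r) (hk : k = r ^ 2 + r) (hΔ₁ : Δ₁ = 64 * k * (k + 1) ^ 2)
    (hρ : ρ = k + Δ₁ * q) (hcard : Fintype.card V < 2 ^ q) (hR : Robust D Δ)
    (hΔ : ((r ^ 2 + 1) * (q + 1)) * (q * (ρ + 1) + (r ^ 2 + 1) * (q + 1)) + ρ ≤ Δ) :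
    Sub (fun x y : Fin r => x ≠ y) D 1 := by
  classical
  have hι : Fintype.card (Option (Fin r × Fin r)) = r ^ 2 + 1 := by
    simp [sq]
  obtain ⟨χ, hχ⟩ := hCORE V (Option (Fin r × Fin r)) D Δ ρ q hV ⟨none⟩ hcard hR
    (by rw [hι]; exact hΔ)
  set cls : Option (Fin r × Fin r) → Finset V := fun c => Finset.univ.filter (fun x => χ x = c)
    with hcls
  have hcls_mem : ∀ c x, x ∈ cls c ↔ χ x = c := by intro c x; simp [hcls]
  have hdis : ∀ c c', c ≠ c' → Disjoint (cls c) (cls c') := by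
    intro c c' hne
    rw [Finset.disjoint_left]
    intro x hx hx'
    rw [hcls_mem] at hx hx'
    exact hne (hx.symm.trans hx')
  set S := cls none with hS
  have hSρ : ∀ Q : Finset V, Q.card ≤ ρ → ∃ b : V, ∀ v : V, RW D (S \ Q) v b :=
    fun Q hQ => hχ none Q hQ
  -- connectors
  have hconn : ∀ c : Fin r × Fin r, ∃ b : V, ∀ v : V, RW D (cls (some c)) v b := by
    intro c
    obtain ⟨b, hb⟩ := hχ (some c) ∅ (by simp)
    refine ⟨b, fun v => ?_⟩
    have := hb v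
    simpa [hcls] using this
  choose b hb using hconn
  have hbmem : ∀ c, b c ∈ cls (some c) := fun c => rw_mem (hb c (b c))
  have hbinj : Function.Injective b := by
    intro c c' h
    have h1 := (hcls_mem _ _).mp (hbmem c)
    have h2 := (hcls_mem _ _).mp (hbmem c')
    rw [h, h2] at h1
    exact (Option.some.inj h1).symm
  -- the set A
  have hSne : S.Nonempty := by
    obtain ⟨b0, hb0⟩ := hSρ ∅ (by simp)
    obtain ⟨v⟩ := hV
    have := rw_mem (hb0 v)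
    exact ⟨b0, by simpa using this⟩
  have hScard : S.card < 2 ^ q := lt_of_le_of_lt (Finset.card_le_univ S) hcard
  obtain ⟨A, hAS, hAne, hAbd, hAexp⟩ := hPOT V D S Δ₁ q hSne hScard
  have hk2 : 2 ≤ k := by
    rw [hk]
    nlinarith
  have hdeg : ∀ v : V, ρ < (nb D v ∩ S).card := by
    intro v
    by_contra hcon
    push Not at hcon
    obtain ⟨b0, hb0⟩ := hSρ (nb D v ∩ S) hcon
    obtain ⟨u, hu1, hu2⟩ := rw_first (hb0 v)
    rw [Finset.mem_sdiff] at hu2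
    exact hu2.2 (Finset.mem_inter.mpr ⟨(mem_nb D v u).mpr hu1, hu2.1⟩)
  have hA2 : 2 ≤ A.card := by
    by_contra hcon
    have hA1 : A.card = 1 := by
      have := hAne.card_pos
      omega
    obtain ⟨v, hv⟩ := Finset.card_eq_one.mp hA1
    have hsub : (nb D v ∩ S).erase v ⊆ bd D S A := by
      intro u hu
      rw [Finset.mem_erase, Finset.mem_inter, mem_nb] at hu
      rw [mem_bd, hv]
      exact ⟨⟨hu.2.2, by simpa using hu.1⟩, v, by simp, hu.2.1⟩
    have h1 := Finset.card_le_card hsub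
    have h2 := Finset.pred_card_le_card_erase (s := nb D v ∩ S) (a := v)
    have h3 := hdeg v
    omega
  -- good vertices
  set G := A.filter (fun z => Good D A k z) with hG
  have hGcard : Δ₁ < 4 * G.card := by
    refine hGOOD V D A G k Δ₁ (by omega) hA2 hΔ₁.ge hAexp ?_
    intro z hz hgz
    exact Finset.mem_filter.mpr ⟨hz, hgz⟩
  have hrG : r ≤ G.card := by
    have h1 : 4 * r ≤ Δ₁ := by
      rw [hΔ₁]
      have hkr : r ≤ k := by rw [hk]; nlinarith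
      nlinarith [Nat.zero_le (k * (k * (k + 2)))]
    omega
  obtain ⟨Z, hZG, hZcard⟩ := Finset.exists_subset_card_eq hrG
  have hZA : Z ⊆ A := hZG.trans (Finset.filter_subset _ _)
  have hZgood : ∀ z ∈ Z, Good D A k z := fun z hz => (Finset.mem_filter.mp (hZG hz)).2
  set T := Finset.univ.image b with hT
  have hTcard : T.card = r ^ 2 := by
    rw [hT, Finset.card_image_of_injective _ hbinj, Finset.card_univ, Fintype.card_prod,
      Fintype.card_fin, sq]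
  have hTS : Disjoint T S := by
    rw [Finset.disjoint_left]
    intro x hx hxS
    rw [hT, Finset.mem_image] at hx
    obtain ⟨c, _, rfl⟩ := hx
    have h1 := (hcls_mem _ _).mp (hbmem c)
    have h2 := (hcls_mem _ _).mp hxS
    rw [h2] at h1
    exact absurd h1 (by simp)
  have hΔ8 : 8 * (1 + 2 * k) * k ≤ Δ₁ := by
    rw [hΔ₁]
    nlinarith [Nat.zero_le (k * k * k), Nat.zero_le (k * k)]
  have hlink := hLINK V D S A Z T r (Δ₁ * q) ρ k Δ₁ hr hk hΔ8 hρ.ge hAS hAbd hAexp hZA hZcard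
    hZgood hTS hTcard hSρ
  have hdisZ : Disjoint Z ((S \ Z) ∪ T) := by
    rw [Finset.disjoint_union_right]
    refine ⟨Finset.disjoint_sdiff, ?_⟩
    exact (hTS.mono_right (hZA.trans hAS)).symm
  obtain ⟨φ, ψ, e1, e2, e3, e4, e5⟩ := hHALL V _ _ _ _ _ hdisZ hlink
  obtain ⟨P, hP⟩ := hORB V (fun u v => D v u) _ _ _ _ φ ψ e1 e2 e3 e4 e5
  refine hASSM V D r S Z (fun c => cls (some c)) b P (hZA.trans hAS) hZcard ?_ ?_ hbmem hb hP
  · intro c
    exact hdis _ _ (by simp)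
  · intro c c' hne
    exact hdis _ _ (by simpa using hne)

/-- The main theorem from the modules. -/
theorem main_proof (hMINU : Stmt_MINU) (hCORE : Stmt_CORE) (hPOT : Stmt_POT)
    (hGOOD : Stmt_GOOD) (hHALL : Stmt_HALL) (hORB : Stmt_ORB) (hLINK : Stmt_LINK)
    (hASSM : Stmt_ASSM) : Stmt_MAIN := by
  intro r m D hm hdeg
  rcases Nat.eq_zero_or_pos r with hr | hr
  · subst hr
    refine ⟨fun x => x.elim0, fun x => x.elim0, fun x => x.elim0, fun a => a.elim0,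
      fun a => a.elim0⟩
  set q := Nat.log 2 m + 1 with hq
  have hmq : m < 2 ^ q := Nat.lt_pow_succ_log_self (by norm_num) m
  set k := r ^ 2 + r with hk
  set Δ₁ := 64 * k * (k + 1) ^ 2 with hΔ₁
  set ρ := k + Δ₁ * q with hρ
  set Δ := ((r ^ 2 + 1) * (q + 1)) * (q * (ρ + 1) + (r ^ 2 + 1) * (q + 1)) + ρ with hΔ
  have hΔq : Δ * q ≤ 8192 * r ^ 8 * q ^ 4 := num_bound r q hr (by omega)
  obtain ⟨U, hUne, hU⟩ := hMINU (Fin m) D Δ q ⟨⟨0, hm⟩⟩ (by simpa using hmq)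
    (fun v => hΔq.trans (hdeg v))
  have hUcard : Fintype.card {x // x ∈ U} < 2 ^ q := by
    rw [Fintype.card_coe]
    exact lt_of_le_of_lt (Finset.card_le_univ U) (by simpa using hmq)
  have hUn : Nonempty {x // x ∈ U} := by
    obtain ⟨x, hx⟩ := hUne
    exact ⟨⟨x, hx⟩⟩
  have hsub := robust_sub hCORE hPOT hGOOD hHALL hORB hLINK hASSM {x // x ∈ U}
    (fun x y : {x // x ∈ U} => D x.1 y.1) r q k Δ₁ ρ Δ hUn hr hk hΔ₁ hρ hUcard hU hΔ.ge
  exact sub_map Subtype.val Subtype.val_injective (fun x y h => h) hsub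

end Pool.Agent.CDS
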