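import Pool.Agent.CDS.Stmts

set_option autoImplicit false

namespace Pool.Agent.CDS

open Finset

/-- The final theorem from the main theorem. -/
theorem fin_proof (hMAIN : Stmt_MAIN) (hEMB : Stmt_EMB) (hCOMP : Stmt_COMP) : Stmt_FIN := by
  intro n lam F ℓ hF hℓ m D hm _ hdeg
  have hdeg' : ∀ v, 8192 * (n + n ^ 2 * lam) ^ 8 * (Nat.log 2 m + 1) ^ 4 ≤ (nb D v).card := by
    intro v
    have h1 := hdeg v
    have h2 : {w : Fin m | D v w} = (↑(nb D v) : Set (Fin m)) := by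
      ext w
      simp [mem_nb]
    rw [h2, Set.ncard_coe_finset] at h1
    exact h1
  have h1 := hMAIN (n + n ^ 2 * lam) m D hm hdeg'
  have h2 := hEMB n lam F hF
  have h3 := hCOMP _ _ _ F (fun x y : Fin (n + n ^ 2 * lam) => x ≠ y) D (lam + 1) 1 hF
    (fun a h => h rfl) h2 h1
  obtain ⟨f, hf, P, e1, e2⟩ := h3
  refine ⟨f, hf, P, ?_, e2⟩
  intro a b hab
  obtain ⟨g1, g2, g3, g4, g5, g6⟩ := e1 a b hab
  refine ⟨g1, g2, g3, ?_, ?_, g6⟩
  · have := hℓ a b
    omega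
  · intro i u w hu hw
    rw [List.isChain_iff_getElem] at g5
    obtain ⟨hi, rfl⟩ := List.getElem?_eq_some_iff.mp hu
    obtain ⟨hi', rfl⟩ := List.getElem?_eq_some_iff.mp hw
    exact g5 i hi'

end Pool.Agent.CDS
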