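import Pool.Agent.CDS.Stmts

/-!
# CAT: concatenation of subdivision paths along a path
-/

set_option autoImplicit false

namespace Pool.Agent.CDS

theorem cat_proof : Stmt_CAT := by
  intro V₁ V₂ E D lam g P hg hP hd L
  induction L with
  | nil => intro h; exact absurd rfl h
  | cons x L ih =>
    intro _ hnd hch
    cases L with
    | nil =>
      refine ⟨[g x], by simp, by simp, by simp, by simp, by simp, ?_⟩
      intro v hv
      left
      exact ⟨x, by simp, by simpa using hv⟩
    | cons y L =>
      have hnd' := List.nodup_cons.1 hnd
      have hxy : E x y := (List.isChain_cons_cons.1 hch).1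
      obtain ⟨M', hM1, hM2, hM3, hM4, hM5, hM6⟩ := ih (by simp) hnd'.2
        (List.isChain_cons_cons.1 hch).2
      obtain ⟨p1, p2, p3, p4, p5, p6⟩ := hP x y hxy
      -- split the path from x to y
      obtain ⟨l, hl⟩ : ∃ l, P x y = l ++ [g y] := by
        obtain ⟨l, hl⟩ := List.getLast?_eq_some_iff.1 p2
        exact ⟨l, hl⟩
      obtain ⟨M'', hM''⟩ : ∃ M'', M' = g y :: M'' := by
        simp only [List.head?_cons, Option.map_some] at hM1
        exact ⟨M'.tail, (List.cons_head?_tail hM1).symm⟩
      have hne : x ≠ y := by
        rintro rfl
        exact hnd'.1 (by simp)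
      have hl0 : l ≠ [] := by
        rintro rfl
        rw [hl] at p1
        simp only [List.nil_append, List.head?_cons, Option.some.injEq] at p1
        exact hne (hg p1).symm
      rw [hl] at p3
      have hgy : g y ∉ l := by
        intro h
        have := List.nodup_append.1 p3
        exact this.2.2 _ h _ (by simp) rfl
      have hsub : ∀ v ∈ l, v ∈ P x y := by
        intro v hv
        rw [hl]
        exact List.mem_append_left _ hv
      refine ⟨l ++ M', ?_, ?_, ?_, ?_, ?_, ?_⟩
      · rw [hl] at p1
        cases l with
        | nil => exact absurd rfl hl0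
        | cons a l => simpa using p1
      · rw [List.getLast?_append, hM2]
        simp only [List.getLast?_cons_cons]
        rcases h : (y :: L).getLast? with _ | w
        · simp at h
        · simp
      · refine List.nodup_append.2 ⟨(List.nodup_append.1 p3).1, hM3, ?_⟩
        rintro v hv w hw rfl
        have hv' := hsub v hv
        rcases hM6 v hw with ⟨z, hz, rfl⟩ | ⟨x', y', hxy', hin, hv2⟩
        · rcases p6 z hv' with rfl | rfl
          · exact hnd'.1 hz
          · exact hgy hv
        · have hx'm : x' ∈ y :: L := hin.subset (by simp)
          have hy'm : y' ∈ y :: L := hin.subset (by simp)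
          obtain ⟨z, rfl⟩ := hd x y x' y' hxy hxy' (by
            intro h
            injection h with h1 h2
            subst h1
            exact hnd'.1 hx'm) v hv' hv2
          rcases p6 z hv' with rfl | rfl
          · rcases (hP x' y' hxy').2.2.2.2.2 z hv2 with rfl | rfl
            · exact hnd'.1 hx'm
            · exact hnd'.1 hy'm
          · exact hgy hv
      · rw [hl] at p4
        simp only [List.length_append, List.length_cons, List.length_nil] at p4 hM4 ⊢
        have e1 : (L.length + 1 + 1 - 1) * lam = (L.length + 1 - 1) * lam + lam := by
          have : L.length + 1 + 1 - 1 = (L.length + 1 - 1) + 1 := by omega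
          rw [this]
          ring
        omega
      · rw [hM'']
        rw [List.isChain_split]
        refine ⟨?_, ?_⟩
        · rw [← hl]; exact p5
        · rw [← hM'']; exact hM5
      · intro v hv
        rcases List.mem_append.1 hv with hv | hv
        · right
          exact ⟨x, y, hxy, ⟨[], L, by simp⟩, hsub v hv⟩
        · rcases hM6 v hv with ⟨z, hz, rfl⟩ | ⟨x', y', hxy', hin, hv2⟩
          · exact Or.inl ⟨z, List.mem_cons_of_mem _ hz, rfl⟩
          · exact Or.inr ⟨x', y', hxy', hin.trans (List.suffix_cons x _).isInfix, hv2⟩

end Pool.Agent.CDS
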