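import Pool.Agent.CDS.Stmts

/-!
# The coarea inequality (MP_b1d27d_co, squad CDS, module COAR)
-/

set_option autoImplicit false

namespace Pool.Agent.CDS

open Finset

namespace COARX

theorem cost_nonneg {V : Type} {D : V → V → Prop} {X : Finset V} {e : V → ℝ} {v₀ : V}
    (he : ∀ x, 0 ≤ e x) : ∀ {w : V} {s : ℝ}, CR D X e v₀ w s → 0 ≤ s := by
  intro w s h
  induction h with
  | base => exact le_refl _
  | step _ _ _ ih => exact add_nonneg ih (he _)

open MeasureTheory in
theorem ind_int (a b : ℝ) (hab : a ≤ b) (S : Set ℝ) (hS : MeasurableSet S) :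
    ∫ t in S, (Set.Ioc a b).indicator (fun _ => (1 : ℝ)) t ≤ b - a := by
  have h1 : ∫ t in S, (Set.Ioc a b).indicator (fun _ => (1 : ℝ)) t
      ≤ ∫ t, (Set.Ioc a b).indicator (fun _ => (1 : ℝ)) t := by
    apply setIntegral_le_integral
    · exact (integrable_indicator_iff measurableSet_Ioc).2
        (integrableOn_const (by simp) (by simp))
    · exact Filter.Eventually.of_forall (fun t => Set.indicator_nonneg (fun _ _ => zero_le_one) t)
  refine h1.trans (le_of_eq ?_)
  rw [integral_indicator measurableSet_Ioc]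
  simp [hab]

end COARX

open COARX MeasureTheory in
theorem coar_proof : Stmt_COAR := by
  classical
  unfold Stmt_COAR
  intro V i1 i2 D X R e v₀ τ c he hτ hR hA
  set ρ : V → ℝ := fun x => sInf {s : ℝ | CR D X e v₀ x s} with hρ
  have key : ∀ t ∈ Set.Ioc (0 : ℝ) τ,
      c ≤ ∑ x ∈ R, (Set.Ioc (ρ x - e x) (ρ x)).indicator (fun _ => (1 : ℝ)) t := by
    intro t ht
    set A : Finset V := Finset.univ.filter (fun w => ∃ s, s < t ∧ CR D X e v₀ w s) with hAdef
    have h1 : v₀ ∈ A := by
      rw [hAdef, Finset.mem_filter]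
      exact ⟨Finset.mem_univ _, 0, ht.1, CR.base⟩
    have h2 : A ⊆ insert v₀ R := by
      intro w hw
      rw [hAdef, Finset.mem_filter] at hw
      obtain ⟨_, s, hs, hcr⟩ := hw
      rw [Finset.mem_insert]
      cases hcr with
      | base => exact Or.inl rfl
      | step hu hD hx =>
        rename_i u s'
        right
        refine hR u s' w hu ?_ hD hx
        have := he w
        linarith [ht.2]
    have h3 := hA A h1 h2
    refine h3.trans ?_
    have h4 : ∀ x ∈ bd D X A, x ∈ R ∧ t ∈ Set.Ioc (ρ x - e x) (ρ x) := by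
      intro x hx
      rw [mem_bd] at hx
      obtain ⟨⟨hxX, hxA⟩, a, ha, hax⟩ := hx
      rw [hAdef, Finset.mem_filter] at ha
      obtain ⟨_, s, hs, hcr⟩ := ha
      refine ⟨hR a s x hcr (lt_of_lt_of_le hs ht.2) hax hxX, ?_, ?_⟩
      · have hc : CR D X e v₀ x (s + e x) := CR.step hcr hax hxX
        have : ρ x ≤ s + e x := by
          apply csInf_le
          · exact ⟨0, fun y hy => cost_nonneg he hy⟩
          · exact hc
        linarith
      · apply le_csInf
        · exact ⟨s + e x, CR.step hcr hax hxX⟩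
        · intro y hy
          by_contra hlt
          apply hxA
          rw [hAdef, Finset.mem_filter]
          exact ⟨Finset.mem_univ _, y, not_le.1 hlt, hy⟩
    have h5 : ((bd D X A).card : ℝ) =
        ∑ x ∈ bd D X A, (Set.Ioc (ρ x - e x) (ρ x)).indicator (fun _ => (1 : ℝ)) t := by
      rw [Finset.card_eq_sum_ones, Nat.cast_sum]
      apply Finset.sum_congr rfl
      intro x hx
      rw [Set.indicator_of_mem (h4 x hx).2]
      simp
    rw [h5]
    apply Finset.sum_le_sum_of_subset_of_nonneg
    · intro x hx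
      exact (h4 x hx).1
    · intro x _ _
      exact Set.indicator_nonneg (fun _ _ => zero_le_one) t
  have hint : ∀ x, IntegrableOn
      (fun t => (Set.Ioc (ρ x - e x) (ρ x)).indicator (fun _ => (1 : ℝ)) t)
      (Set.Ioc (0 : ℝ) τ) := by
    intro x
    exact ((integrable_indicator_iff measurableSet_Ioc).2
        (integrableOn_const (by simp) (by simp))).integrableOn
  have h1 : ∫ t in Set.Ioc (0 : ℝ) τ, c ≤
      ∫ t in Set.Ioc (0 : ℝ) τ,
        ∑ x ∈ R, (Set.Ioc (ρ x - e x) (ρ x)).indicator (fun _ => (1 : ℝ)) t := by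
    apply setIntegral_mono_on
    · exact integrableOn_const (by simp) (by simp)
    · exact integrable_finset_sum _ (fun x _ => hint x)
    · exact measurableSet_Ioc
    · exact key
  have h2 : ∫ t in Set.Ioc (0 : ℝ) τ, c = c * τ := by
    rw [setIntegral_const]
    simp [hτ.le, mul_comm]
  rw [h2, integral_finset_sum _ (fun x _ => hint x)] at h1
  refine h1.trans (Finset.sum_le_sum (fun x _ => ?_))
  have := ind_int (ρ x - e x) (ρ x) (by linarith [he x]) (Set.Ioc (0 : ℝ) τ) measurableSet_Ioc
  linarith

end Pool.Agent.CDS
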