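import Pool.Agent.CDS.Stmts

/-!
# CDS, module COMP: composition of subdivisions
-/

set_option autoImplicit false

namespace Pool.Agent.CDS

namespace COMPX

theorem ne_last {V : Type} {L : List V} (hL : L.Nodup) {x y : V} (h : [x, y] <:+: L) :
    L.getLast? ≠ some x := by
  obtain ⟨s, t, rfl⟩ := h
  intro h1
  have e : s ++ [x, y] ++ t = (s ++ [x]) ++ (y :: t) := by simp
  rw [e] at h1 hL
  have h2 : (y :: t).getLast? = some x := by
    rw [List.getLast?_append] at h1
    cases h3 : (y :: t).getLast? with
    | none => simp at h3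
    | some z =>
      rw [h3] at h1
      simpa using h1
  have h3 : x ∈ y :: t := List.mem_of_getLast? h2
  have h4 := (List.nodup_append.1 hL).2.2
  exact h4 x (by simp) x h3 rfl

theorem ne_head {V : Type} {L : List V} (hL : L.Nodup) {x y : V} (h : [x, y] <:+: L) :
    L.head? ≠ some y := by
  obtain ⟨s, t, rfl⟩ := h
  intro h1
  have e : s ++ [x, y] ++ t = (s ++ [x]) ++ (y :: t) := by simp
  rw [e] at h1 hL
  have h3 : y ∈ s ++ [x] := by
    cases s with
    | nil =>
      simp only [List.nil_append, List.cons_append, List.head?_cons, Option.some.injEq] at h1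
      simp [h1]
    | cons a s =>
      simp only [List.cons_append, List.head?_cons, Option.some.injEq] at h1
      simp [h1]
  have h4 := (List.nodup_append.1 hL).2.2
  exact h4 y h3 y (by simp) rfl

theorem mem_left {V : Type} {L : List V} {x y : V} (h : [x, y] <:+: L) : x ∈ L :=
  h.subset (by simp)

theorem mem_right {V : Type} {L : List V} {x y : V} (h : [x, y] <:+: L) : y ∈ L :=
  h.subset (by simp)

end COMPX

open COMPX in
theorem comp_proof (hCat : Stmt_CAT) : Stmt_COMP := by
  classical
  intro V₀ V₁ V₂ F E D l₁ l₂ _ _ hFE hED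
  obtain ⟨f, hf, P, hP, hPd⟩ := hFE
  obtain ⟨g, hg, Q, hQ, hQd⟩ := hED
  have hM : ∀ a b, ∃ M : List V₂, F a b →
      M.head? = (P a b).head?.map g ∧ M.getLast? = (P a b).getLast?.map g ∧ M.Nodup ∧
        ((P a b).length - 1) * l₂ + 1 ≤ M.length ∧ List.IsChain D M ∧
        ∀ v ∈ M, (∃ x ∈ P a b, v = g x) ∨
          ∃ x y, E x y ∧ [x, y] <:+: P a b ∧ v ∈ Q x y := by
    intro a b
    by_cases hab : F a b
    · obtain ⟨h1, -, h3, -, h5, -⟩ := hP a b hab
      have hne : P a b ≠ [] := by
        intro h0
        rw [h0] at h1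
        simp at h1
      obtain ⟨M, hM⟩ := hCat V₁ V₂ E D l₂ g Q hg hQ hQd (P a b) hne h3 h5
      exact ⟨M, fun _ => hM⟩
    · exact ⟨[], fun h => absurd h hab⟩
  choose M hM using hM
  -- points of the form g z on two paths
  have key : ∀ a b c d, F a b → F c d → (a, b) ≠ (c, d) → ∀ z, z ∈ P a b → z ∈ P c d →
      ∀ v, v = g z → ∃ x, g (f x) = v := by
    intro a b c d hab hcd hne z hz hz' v hv
    obtain ⟨x, hx⟩ := hPd a b c d hab hcd hne z hz hz'
    exact ⟨x, by rw [hx, hv]⟩
  -- g z on a path Q x y
  have onQ : ∀ a b z x y, E x y → [x, y] <:+: P a b → g z ∈ Q x y → z ∈ P a b := by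
    intro a b z x y hxy hin hz
    rcases (hQ x y hxy).2.2.2.2.2 z hz with h | h
    · rw [h]; exact mem_left hin
    · rw [h]; exact mem_right hin
  refine ⟨fun x => g (f x), fun x y h => hf (hg h), M, ?_, ?_⟩
  · intro a b hab
    obtain ⟨m1, m2, m3, m4, m5, m6⟩ := hM a b hab
    obtain ⟨p1, p2, p3, p4, p5, p6⟩ := hP a b hab
    refine ⟨by rw [m1, p1]; rfl, by rw [m2, p2]; rfl, m3, ?_, m5, ?_⟩
    · have h1 : l₁ ≤ (P a b).length - 1 := by omega
      have h2 : l₁ * l₂ ≤ ((P a b).length - 1) * l₂ := Nat.mul_le_mul_right _ h1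
      omega
    · intro x hx
      rcases m6 _ hx with ⟨z, hz, hzx⟩ | ⟨u, w, huw, hin, hv⟩
      · have : f x = z := hg hzx
        exact p6 x (this ▸ hz)
      · exact p6 x (onQ a b (f x) u w huw hin hv)
  · intro a b c d hab hcd hne v hv hv'
    obtain ⟨-, -, -, -, -, m6⟩ := hM a b hab
    obtain ⟨-, -, -, -, -, n6⟩ := hM c d hcd
    obtain ⟨p1, p2, p3, p4, p5, p6⟩ := hP a b hab
    obtain ⟨q1, q2, q3, q4, q5, q6⟩ := hP c d hcd
    rcases m6 v hv with ⟨z, hz, hzx⟩ | ⟨u, w, huw, hin, hvQ⟩
    · rcases n6 v hv' with ⟨z', hz', hzx'⟩ | ⟨u', w', huw', hin', hvQ'⟩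
      · have : z = z' := hg (by rw [← hzx, ← hzx'])
        exact key a b c d hab hcd hne z hz (this ▸ hz') v hzx
      · exact key a b c d hab hcd hne z hz (onQ c d z u' w' huw' hin' (hzx ▸ hvQ')) v hzx
    · rcases n6 v hv' with ⟨z', hz', hzx'⟩ | ⟨u', w', huw', hin', hvQ'⟩
      · exact key a b c d hab hcd hne z' (onQ a b z' u w huw hin (hzx' ▸ hvQ)) hz' v hzx'
      · by_cases heq : (u, w) = (u', w')
        · exfalso
          have e1 : u = u' := congrArg Prod.fst heq
          have e2 : w = w' := congrArg Prod.snd heq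
          subst e1
          subst e2
          obtain ⟨x, hx⟩ := hPd a b c d hab hcd hne u (mem_left hin) (mem_left hin')
          obtain ⟨y, hy⟩ := hPd a b c d hab hcd hne w (mem_right hin) (mem_right hin')
          have a1 : x = a := by
            rcases p6 x (hx ▸ mem_left hin) with h | h
            · exact h
            · exfalso
              apply ne_last p3 hin
              rw [p2, ← h, hx]
          have b1 : y = b := by
            rcases p6 y (hy ▸ mem_right hin) with h | h
            · exfalso
              apply ne_head p3 hin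
              rw [p1, ← h, hy]
            · exact h
          have a2 : x = c := by
            rcases q6 x (hx ▸ mem_left hin') with h | h
            · exact h
            · exfalso
              apply ne_last q3 hin'
              rw [q2, ← h, hx]
          have b2 : y = d := by
            rcases q6 y (hy ▸ mem_right hin') with h | h
            · exfalso
              apply ne_head q3 hin'
              rw [q1, ← h, hy]
            · exact h
          apply hne
          rw [← a1, ← b1, ← a2, ← b2]
        · obtain ⟨z, hz⟩ := hQd u w u' w' huw huw' heq v hvQ hvQ'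
          exact key a b c d hab hcd hne z (onQ a b z u w huw hin (hz ▸ hvQ))
            (onQ c d z u' w' huw' hin' (hz ▸ hvQ')) v hz.symm

end Pool.Agent.CDS
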