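import Pool.Agent.CDS.Stmts

/-!
# CORE (MP_b1d27d_co, squad CDS)
-/

set_option autoImplicit false

namespace Pool.Agent.CDS.COREX

open Finset

theorem bern (a n : ℕ) : (a + n) * a ^ n ≤ a * (a + 1) ^ n := by
  induction n with
  | zero => simp
  | succ n ih =>
    have h1 : (a + 1) * ((a + n) * a ^ n) ≤ (a + 1) * (a * (a + 1) ^ n) :=
      Nat.mul_le_mul_left _ ih
    have h2 : (a + 1) * (a * (a + 1) ^ n) = a * (a + 1) ^ (n + 1) := by ring
    have h3 : (a + (n + 1)) * a ^ (n + 1) ≤ (a + 1) * ((a + n) * a ^ n) := by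
      have h4 : (a + (n + 1)) * a ^ (n + 1) = (a * a + a * n + a) * a ^ n := by ring
      have h5 : (a + 1) * ((a + n) * a ^ n) = (a * a + a * n + a + n) * a ^ n := by ring
      rw [h4, h5]
      exact Nat.mul_le_mul_right _ (by omega)
    omega

theorem two_mul_pow (a : ℕ) : 2 * a ^ (a + 1) ≤ (a + 1) ^ (a + 1) := by
  have h1 := bern a a
  have h2 : (a + a) * a ^ a = 2 * a ^ (a + 1) := by ring
  have h3 : a * (a + 1) ^ a ≤ (a + 1) * (a + 1) ^ a := Nat.mul_le_mul_right _ (by omega)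
  have h4 : (a + 1) * (a + 1) ^ a = (a + 1) ^ (a + 1) := by ring
  omega

theorem count (L p T : ℕ) (hL : 1 ≤ L) (hT : T < 2 ^ p) :
    T * (L - 1) ^ (L * p) < L ^ (L * p) := by
  obtain ⟨a, rfl⟩ : ∃ a, L = a + 1 := ⟨L - 1, by omega⟩
  rw [Nat.add_sub_cancel]
  have h1 : 2 ^ p * a ^ ((a + 1) * p) ≤ (a + 1) ^ ((a + 1) * p) := by
    rw [pow_mul, pow_mul, ← mul_pow]
    exact Nat.pow_le_pow_left (two_mul_pow a) p
  rcases Nat.eq_zero_or_pos (a ^ ((a + 1) * p)) with h0 | h0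
  · rw [h0, Nat.mul_zero]
    exact Nat.pow_pos (by omega)
  · exact lt_of_lt_of_le (Nat.mul_lt_mul_of_pos_right hT h0) h1

/-- the number of tests -/
theorem tests (L v q ρ : ℕ) (hv : v < 2 ^ q) :
    L * v ^ (ρ + 1) < 2 ^ (q * (ρ + 1) + L) := by
  have h1 : v ^ (ρ + 1) ≤ 2 ^ (q * (ρ + 1)) := by
    rw [pow_mul]
    exact Nat.pow_le_pow_left hv.le _
  have h2 : L < 2 ^ L := Nat.lt_two_pow_self
  calc L * v ^ (ρ + 1) ≤ L * 2 ^ (q * (ρ + 1)) := Nat.mul_le_mul_left _ h1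
    _ < 2 ^ L * 2 ^ (q * (ρ + 1)) := Nat.mul_lt_mul_of_pos_right h2 (Nat.pow_pos (by norm_num))
    _ = 2 ^ (q * (ρ + 1) + L) := by rw [pow_add]; ring

/-- a finite set with at most `ρ` elements is contained in the range of a function on `Fin ρ` -/
theorem exists_fun {V : Type} [DecidableEq V] (v₀ : V) (ρ : ℕ) (Q : Finset V)
    (hQ : Q.card ≤ ρ) : ∃ g : Fin ρ → V, Q ⊆ Finset.univ.image g := by
  classical
  refine ⟨fun i => Q.toList.getD i v₀, ?_⟩
  intro x hx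
  rw [← Finset.mem_toList] at hx
  obtain ⟨n, hn, hnx⟩ := List.getElem_of_mem hx
  rw [Finset.mem_image]
  have hn' : n < ρ := by
    rw [Finset.length_toList] at hn
    omega
  refine ⟨⟨n, hn'⟩, Finset.mem_univ _, ?_⟩
  show Q.toList.getD n v₀ = x
  rw [List.getD_eq_getElem _ _ hn]
  exact hnx

theorem rw_mono {V : Type} {D : V → V → Prop} {W W' : Finset V} (h : W ⊆ W') {v b : V}
    (hr : RW D W v b) : RW D W' v b :=
  Relation.TransGen.mono (r := fun x y => D x y ∧ y ∈ W) (p := fun x y => D x y ∧ y ∈ W')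
    (fun _ _ hxy => ⟨hxy.1, h hxy.2⟩) v b hr

end Pool.Agent.CDS.COREX

namespace Pool.Agent.CDS

open Finset

theorem core_proof (h1 : Stmt_LAB) (h2 : Stmt_HSTEP) : Stmt_CORE := by
  unfold Stmt_CORE
  intro V ι _ _ _ _ D Δ ρ q hV hι hq hR hΔ
  obtain ⟨H0, hH0c, -, hH0⟩ := h2 V D Δ hV hR
  set L := Fintype.card ι * (q + 1) with hLdef
  set p := q * (ρ + 1) + L with hp
  have hL : 1 ≤ L := Nat.mul_pos Fintype.card_pos (Nat.succ_pos q)
  have hcardΛ : Fintype.card (ι × Fin (q + 1)) = L := by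
    rw [Fintype.card_prod, Fintype.card_fin]
  -- tests
  let T : Type := ι × (Fin ρ → V) × Fin (q + 1) × V
  let P : T → Finset (ι × Fin (q + 1)) := fun t =>
    Finset.univ.filter (fun a => a.1 = t.1 ∧ a.2 < t.2.2.1)
  let l : T → ι × Fin (q + 1) := fun t => (t.1, t.2.2.1)
  let G : T → Finset V := fun t => Finset.univ.image t.2.1
  let H : T → Finset V → Finset V := fun t W =>
    (if (t.2.2.1 : ℕ) = 0 then nb D t.2.2.2 else H0 (W \ G t) t.2.2.2) \ G t
  have hG : ∀ t, (G t).card ≤ ρ := by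
    intro t
    refine (Finset.card_image_le).trans ?_
    rw [Finset.card_univ, Fintype.card_fin]
  have hH : ∀ t W, L * p ≤ (H t W).card := by
    intro t W
    have e1 : (if (t.2.2.1 : ℕ) = 0 then nb D t.2.2.2 else H0 (W \ G t) t.2.2.2).card -
        (G t).card ≤ (H t W).card := Finset.le_card_sdiff _ _
    have e2 : Δ ≤ (if (t.2.2.1 : ℕ) = 0 then nb D t.2.2.2 else H0 (W \ G t) t.2.2.2).card := by
      split_ifs with h
      · exact hR.1 _
      · exact hH0c _ _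
    have e3 := hG t
    omega
  have hcardT : Fintype.card T < 2 ^ p := by
    have e1 : Fintype.card T = L * Fintype.card V ^ (ρ + 1) := by
      show Fintype.card (ι × (Fin ρ → V) × Fin (q + 1) × V) = _
      rw [Fintype.card_prod, Fintype.card_prod, Fintype.card_prod, Fintype.card_fun,
        Fintype.card_fin, Fintype.card_fin, hLdef]
      ring
    rw [e1]
    exact COREX.tests L _ q ρ hq
  haveI : Nonempty (ι × Fin (q + 1)) := inferInstance
  obtain ⟨f, hf⟩ := h1 V (ι × Fin (q + 1)) T P l H (L * p) inferInstance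
    (by
      intro t ht
      have := (Finset.mem_filter.1 ht).2.2
      exact lt_irrefl _ this) hH
    (by rw [hcardΛ]; exact COREX.count L p _ hL hcardT)
  refine ⟨fun v => (f v).1, ?_⟩
  intro c Q hQ
  obtain ⟨v₀⟩ := hV
  obtain ⟨g, hg⟩ := COREX.exists_fun v₀ ρ Q hQ
  let GG : Finset V := Finset.univ.image g
  let W : ℕ → Finset V := fun j =>
    (Finset.univ.filter (fun v => (f v).1 = c ∧ ((f v).2 : ℕ) ≤ j)) \ GG
  have hWm : ∀ j v, v ∈ W j ↔ ((f v).1 = c ∧ ((f v).2 : ℕ) ≤ j) ∧ v ∉ GG := by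
    intro j v
    show v ∈ (Finset.univ.filter (fun v => (f v).1 = c ∧ ((f v).2 : ℕ) ≤ j)) \ GG ↔ _
    rw [Finset.mem_sdiff, Finset.mem_filter]
    exact ⟨fun h => ⟨h.1.2, h.2⟩, fun h => ⟨⟨Finset.mem_univ _, h.1⟩, h.2⟩⟩
  -- the test at level 0
  have ht0 : ∀ v, ∃ u, D v u ∧ u ∈ W 0 := by
    intro v
    obtain ⟨u, hu, hfu⟩ := hf (c, g, ⟨0, Nat.succ_pos q⟩, v)
    have hu' : u ∈ nb D v \ GG := hu
    rw [Finset.mem_sdiff, mem_nb] at hu'
    refine ⟨u, hu'.1, (hWm 0 u).2 ⟨?_, hu'.2⟩⟩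
    rcases hfu with h | h
    · have h3 := (Finset.mem_filter.1 h).2
      exact absurd h3.2 (Nat.not_lt_zero _)
    · have e1 : f u = (c, (⟨0, Nat.succ_pos q⟩ : Fin (q + 1))) := h
      rw [e1]
      exact ⟨rfl, le_refl _⟩
  have hts : ∀ j, j + 1 ≤ q → ∀ v, ∃ u ∈ H0 (W j) v, u ∈ W (j + 1) := by
    intro j hj v
    have hj' : j + 1 < q + 1 := by omega
    obtain ⟨u, hu, hfu⟩ := hf (c, g, ⟨j + 1, hj'⟩, v)
    have hset : (Finset.univ.filter (fun w => f w ∈ P (c, g, ⟨j + 1, hj'⟩, v))) \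
        G (c, g, ⟨j + 1, hj'⟩, v) = W j := by
      ext w
      rw [Finset.mem_sdiff, Finset.mem_filter, hWm]
      constructor
      · rintro ⟨⟨-, h3⟩, h4⟩
        have h5 := (Finset.mem_filter.1 h3).2
        have h6 : ((f w).2 : ℕ) < j + 1 := h5.2
        exact ⟨⟨h5.1, by omega⟩, h4⟩
      · rintro ⟨⟨h3, h4⟩, h5⟩
        refine ⟨⟨Finset.mem_univ _, Finset.mem_filter.2 ⟨Finset.mem_univ _, h3, ?_⟩⟩, h5⟩
        show ((f w).2 : ℕ) < j + 1
        omega
    have hu' : u ∈ (if j + 1 = 0 then nb D v else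
        H0 ((Finset.univ.filter (fun w => f w ∈ P (c, g, ⟨j + 1, hj'⟩, v))) \
          G (c, g, ⟨j + 1, hj'⟩, v)) v) \ GG := hu
    rw [if_neg (by omega), hset, Finset.mem_sdiff] at hu'
    refine ⟨u, hu'.1, (hWm (j + 1) u).2 ⟨?_, hu'.2⟩⟩
    rcases hfu with h | h
    · have h3 := (Finset.mem_filter.1 h).2
      have h4 : ((f u).2 : ℕ) < j + 1 := h3.2
      exact ⟨h3.1, by omega⟩
    · have e1 : f u = (c, (⟨j + 1, hj'⟩ : Fin (q + 1))) := h
      rw [e1]
      exact ⟨rfl, le_refl _⟩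
  have hit : ∀ j, j ≤ q → Hit D (W j) (2 ^ (q - j)) := by
    intro j
    induction j with
    | zero =>
      intro _
      refine ⟨Finset.univ, ?_, fun v => ?_⟩
      · rw [Finset.card_univ, Nat.sub_zero]
        exact hq.le
      · obtain ⟨u, hu1, hu2⟩ := ht0 v
        exact ⟨u, Finset.mem_univ _, Relation.TransGen.single ⟨hu1, hu2⟩⟩
    | succ j ih =>
      intro hj
      have e1 := ih (by omega)
      have e2 : q - j = (q - (j + 1)) + 1 := by omega
      rw [e2] at e1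
      refine hH0 (W j) (W (j + 1)) (q - (j + 1)) ?_ e1 (hts j hj)
      intro v hv
      rw [hWm] at hv ⊢
      exact ⟨⟨hv.1.1, by omega⟩, hv.2⟩
  obtain ⟨R, hRc, hRv⟩ := hit q le_rfl
  rw [Nat.sub_self, pow_zero] at hRc
  obtain ⟨b, hb, -⟩ := hRv v₀
  refine ⟨b, fun v => ?_⟩
  obtain ⟨b', hb', hr⟩ := hRv v
  have hbb : b' = b := Finset.card_le_one.1 hRc b' hb' b hb
  rw [hbb] at hr
  refine COREX.rw_mono ?_ hr
  intro x hx
  rw [hWm] at hx
  rw [Finset.mem_sdiff, Finset.mem_filter]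
  exact ⟨⟨Finset.mem_univ _, hx.1.1⟩, fun hxQ => hx.2 (hg hxQ)⟩

end Pool.Agent.CDS
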