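import Pool.Agent.CDS.Stmts

/-! Module DBL: the double counting. -/

set_option autoImplicit false

namespace Pool.Agent.CDS

open Finset

namespace DBLX

variable {V : Type} [Fintype V] [DecidableEq V]

theorem ent_nonneg (D : V → V → Prop) (A : Finset V) (𝓕 : Finset (Finset V))
    (x : Finset V → ℝ) (hx : ∀ F, 0 ≤ x F) (w : V) : 0 ≤ ent D A 𝓕 x w :=
  Finset.sum_nonneg (fun F _ => hx F)

theorem com_nonneg (D : V → V → Prop) (A : Finset V) (𝓕 : Finset (Finset V))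
    (x : Finset V → ℝ) (hx : ∀ F, 0 ≤ x F) (v w : V) : 0 ≤ com D A 𝓕 x v w :=
  Finset.sum_nonneg (fun F _ => hx F)

theorem sum_ent (D : V → V → Prop) (A X : Finset V) (𝓕 : Finset (Finset V))
    (x : Finset V → ℝ) (k : ℕ) (hb : ∀ F ∈ 𝓕, Bad D A k F) (hx : ∀ F, 0 ≤ x F) :
    ∑ w ∈ X, ent D A 𝓕 x w ≤ (k : ℝ) * ∑ F ∈ 𝓕, x F := by
  unfold ent
  simp_rw [Finset.sum_filter]
  rw [Finset.sum_comm, Finset.mul_sum]
  refine Finset.sum_le_sum (fun F hF => ?_)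
  rw [← Finset.sum_filter, Finset.sum_const, nsmul_eq_mul]
  refine mul_le_mul_of_nonneg_right ?_ (hx F)
  have h1 : (X.filter (fun w => w ∈ ib D A F)).card ≤ (ib D A F).card :=
    Finset.card_le_card (fun w hw => (Finset.mem_filter.1 hw).2)
  exact_mod_cast h1.trans (hb F hF).2.2

theorem sum_y (D : V → V → Prop) (A X F : Finset V) (y : V → ℝ) (k : ℕ)
    (hb : Bad D A k F) (hy : ∀ v, 0 ≤ y v) (hy1 : ∀ v ∈ X, y v ≤ 1)
    (hF : ∑ v ∈ F ∩ X, y v ≤ 1) :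
    ∑ v ∈ X, (if v ∈ F ∨ v ∈ ib D A F then y v else 0) ≤ 1 + (k : ℝ) := by
  have h1 : ∀ v ∈ X, (if v ∈ F ∨ v ∈ ib D A F then y v else 0) ≤
      (if v ∈ F then y v else 0) + (if v ∈ ib D A F then (1 : ℝ) else 0) := by
    intro v hv
    have a := hy v
    have b := hy1 v hv
    by_cases c1 : v ∈ F <;> by_cases c2 : v ∈ ib D A F <;> simp [c1, c2] <;> linarith
  refine (Finset.sum_le_sum h1).trans ?_
  rw [Finset.sum_add_distrib]
  refine add_le_add ?_ ?_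
  · rw [← Finset.sum_filter, Finset.filter_mem_eq_inter, Finset.inter_comm]
    exact hF
  · rw [← Finset.sum_filter, Finset.sum_const, nsmul_eq_mul, mul_one]
    have h2 : (X.filter (fun w => w ∈ ib D A F)).card ≤ (ib D A F).card :=
      Finset.card_le_card (fun w hw => (Finset.mem_filter.1 hw).2)
    exact_mod_cast h2.trans hb.2.2

theorem sum_com (D : V → V → Prop) (A X : Finset V) (𝓕 : Finset (Finset V))
    (x : Finset V → ℝ) (y : V → ℝ) (k : ℕ) (hb : ∀ F ∈ 𝓕, Bad D A k F) (hx : ∀ F, 0 ≤ x F)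
    (hy : ∀ v, 0 ≤ y v) (hy1 : ∀ v ∈ X, y v ≤ 1)
    (hF : ∀ F ∈ 𝓕, ∑ v ∈ F ∩ X, y v ≤ 1) (w : V) :
    ∑ v ∈ X, y v * com D A 𝓕 x v w ≤ (1 + (k : ℝ)) * cov 𝓕 x w := by
  unfold com cov
  simp_rw [Finset.sum_filter, Finset.mul_sum]
  rw [Finset.sum_comm]
  refine Finset.sum_le_sum (fun F hF' => ?_)
  by_cases hw : w ∈ F
  · simp only [hw, true_and, if_true]
    have h1 : ∀ v ∈ X, y v * (if v ∈ F ∨ v ∈ ib D A F then x F else 0) =
        (if v ∈ F ∨ v ∈ ib D A F then y v else 0) * x F := by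
      intro v _
      split_ifs <;> ring
    rw [Finset.sum_congr rfl h1, ← Finset.sum_mul]
    exact mul_le_mul_of_nonneg_right (sum_y D A X F y k (hb F hF') hy hy1 (hF F hF')) (hx F)
  · simp [hw]

end DBLX

open DBLX in
theorem dbl_proof : Stmt_DBL := by
  intro V _ _ D A X 𝓕 x y k hXA hb hx hy hc hF
  classical
  have hy1 : ∀ v ∈ X, y v ≤ 1 := by
    intro v hv
    obtain ⟨F, hF1, hvF⟩ := hc v hv
    refine le_trans ?_ (hF F hF1)
    exact Finset.single_le_sum (f := y) (fun i _ => hy i) (Finset.mem_inter.2 ⟨hvF, hv⟩)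
  have hk : (0 : ℝ) ≤ k := Nat.cast_nonneg k
  let X' : Finset V := X.filter (fun w => cov 𝓕 x w ≤ 2 * (k : ℝ) + 3 / 2)
  have h1 : ∀ v ∈ X, y v * ∑ w ∈ reg D A X 𝓕 x k v, ent D A 𝓕 x w ≤
      ∑ w ∈ X', 2 * (ent D A 𝓕 x w * (y v * com D A 𝓕 x v w)) := by
    intro v _
    have h2 : ∑ w ∈ reg D A X 𝓕 x k v, ent D A 𝓕 x w ≤
        ∑ w ∈ X', 2 * (ent D A 𝓕 x w * com D A 𝓕 x v w) := by
      have hsub : reg D A X 𝓕 x k v ⊆ X' := by
        intro w hw
        rw [mem_reg] at hw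
        exact Finset.mem_filter.2 ⟨hw.1, hw.2.2⟩
      refine le_trans (Finset.sum_le_sum (g := fun w => 2 * (ent D A 𝓕 x w * com D A 𝓕 x v w))
        (fun w hw => ?_)) (Finset.sum_le_sum_of_subset_of_nonneg hsub (fun w _ _ => ?_))
      · rw [mem_reg] at hw
        have a := ent_nonneg D A 𝓕 x hx w
        have b := hw.2.1
        nlinarith
      · exact mul_nonneg (by norm_num)
          (mul_nonneg (ent_nonneg D A 𝓕 x hx w) (com_nonneg D A 𝓕 x hx v w))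
    refine (mul_le_mul_of_nonneg_left h2 (hy v)).trans (le_of_eq ?_)
    rw [Finset.mul_sum]
    exact Finset.sum_congr rfl (fun w _ => by ring)
  refine (Finset.sum_le_sum h1).trans ?_
  rw [Finset.sum_comm]
  have h3 : ∀ w ∈ X', ∑ v ∈ X, 2 * (ent D A 𝓕 x w * (y v * com D A 𝓕 x v w)) ≤
      2 * (1 + (k : ℝ)) * (2 * (k : ℝ) + 3 / 2) * ent D A 𝓕 x w := by
    intro w hw
    have hcov := (Finset.mem_filter.1 hw).2
    have he := ent_nonneg D A 𝓕 x hx w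
    rw [← Finset.mul_sum, ← Finset.mul_sum]
    have h4 := sum_com D A X 𝓕 x y k hb hx hy hy1 hF w
    have h5 : ∑ v ∈ X, y v * com D A 𝓕 x v w ≤ (1 + (k : ℝ)) * (2 * (k : ℝ) + 3 / 2) :=
      h4.trans (mul_le_mul_of_nonneg_left hcov (by linarith))
    have h6 := mul_le_mul_of_nonneg_left h5 he
    linarith
  refine (Finset.sum_le_sum h3).trans ?_
  rw [← Finset.mul_sum]
  have h7 := sum_ent D A X' 𝓕 x k hb hx
  have h8 : (0 : ℝ) ≤ 2 * (1 + (k : ℝ)) * (2 * (k : ℝ) + 3 / 2) := by positivity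
  have h9 := mul_le_mul_of_nonneg_left h7 h8
  linarith

end Pool.Agent.CDS
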