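import Pool.Agent.CDS.Stmts

/-!
# CDS: EMB, subdivisions inside complete digraphs
-/

set_option autoImplicit false

namespace Pool.Agent.CDS

namespace EMBX

/-- branch vertices -/
def f (n lam : ℕ) (a : Fin n) : Fin (n + n ^ 2 * lam) := Fin.castAdd (n ^ 2 * lam) a

/-- inner vertices -/
def g (n lam : ℕ) (a b : Fin n) (i : Fin lam) : Fin (n + n ^ 2 * lam) :=
  Fin.natAdd n (Fin.cast (by ring) (finProdFinEquiv (finProdFinEquiv (a, b), i)))

theorem f_inj (n lam : ℕ) : Function.Injective (f n lam) := by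
  intro a b h
  unfold f at h
  exact Fin.castAdd_injective _ _ h

theorem g_inj {n lam : ℕ} {a b c d : Fin n} {i j : Fin lam} (h : g n lam a b i = g n lam c d j) :
    (a, b) = (c, d) ∧ i = j := by
  unfold g at h
  have h1 := (Fin.natAdd_injective _ _ h)
  have h2 := (Fin.cast_injective _ h1)
  have h3 := finProdFinEquiv.injective h2
  have h4 := finProdFinEquiv.injective (Prod.mk.inj h3).1
  exact ⟨h4, (Prod.mk.inj h3).2⟩

theorem f_ne_g {n lam : ℕ} (x a b : Fin n) (i : Fin lam) : f n lam x ≠ g n lam a b i := by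
  intro h
  have h1 := congrArg Fin.val h
  unfold f g at h1
  simp only [Fin.val_castAdd, Fin.val_natAdd] at h1
  have := x.isLt
  omega

/-- the path -/
def P (n lam : ℕ) (a b : Fin n) : List (Fin (n + n ^ 2 * lam)) :=
  f n lam a :: (List.ofFn (g n lam a b) ++ [f n lam b])

theorem mem_P {n lam : ℕ} {a b : Fin n} {v : Fin (n + n ^ 2 * lam)} :
    v ∈ P n lam a b ↔ v = f n lam a ∨ (∃ i, g n lam a b i = v) ∨ v = f n lam b := by
  unfold P
  simp [List.mem_ofFn]

theorem nodup_P {n lam : ℕ} {a b : Fin n} (h : a ≠ b) : (P n lam a b).Nodup := by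
  unfold P
  rw [List.nodup_cons]
  constructor
  · intro hm
    rw [List.mem_append, List.mem_ofFn, List.mem_singleton] at hm
    rcases hm with ⟨i, hi⟩ | hm
    · exact f_ne_g a a b i hi.symm
    · exact h (f_inj n lam hm)
  · rw [List.nodup_append]
    refine ⟨List.nodup_ofFn.mpr (fun i j hij => (g_inj hij).2), List.nodup_singleton _, ?_⟩
    intro x hx y hy
    rw [List.mem_ofFn] at hx
    rw [List.mem_singleton] at hy
    obtain ⟨i, rfl⟩ := hx
    rw [hy]
    exact (f_ne_g b a b i).symm

end EMBX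

open EMBX in
theorem emb_proof : Stmt_EMB := by
  intro n lam F hF
  refine ⟨f n lam, f_inj n lam, P n lam, ?_, ?_⟩
  · intro a b hab
    have hne : a ≠ b := by
      rintro rfl
      exact hF a hab
    refine ⟨rfl, ?_, nodup_P hne, ?_, ?_, ?_⟩
    · unfold P
      rw [← List.cons_append, List.getLast?_append]
      rfl
    · unfold P
      simp
    · exact List.Pairwise.isChain (nodup_P hne)
    · intro x hx
      rw [mem_P] at hx
      rcases hx with hx | ⟨i, hi⟩ | hx
      · exact Or.inl (f_inj n lam hx)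
      · exact absurd hi.symm (f_ne_g x a b i)
      · exact Or.inr (f_inj n lam hx)
  · intro a b c d _ _ hne v hv hv'
    rw [mem_P] at hv hv'
    rcases hv with hv | ⟨i, hi⟩ | hv
    · exact ⟨a, hv.symm⟩
    · rcases hv' with hv' | ⟨j, hj⟩ | hv'
      · exact ⟨c, hv'.symm⟩
      · rw [← hj] at hi
        exact absurd (g_inj hi).1 hne
      · exact ⟨d, hv'.symm⟩
    · exact ⟨b, hv.symm⟩

end Pool.Agent.CDS
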