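import Pool.Agent.CDS.Stmts

/-!
# Many vertices of an expanding set are good (module GOOD, squad CDS)
-/

set_option autoImplicit false

namespace Pool.Agent.CDS

open Finset

namespace GOODX

theorem card_ge {V : Type} [Fintype V] [DecidableEq V] (D : V → V → Prop) (A : Finset V)
    (Δ : ℕ) (hA : 2 ≤ A.card) (hE : Expd D A Δ) : Δ ≤ A.card := by
  obtain ⟨v, hv⟩ : A.Nonempty := Finset.card_pos.1 (by omega)
  have h1 := hE {v} (Finset.singleton_subset_iff.2 hv) (Finset.singleton_nonempty v)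
  rw [Finset.card_singleton] at h1
  have h2 : bd D A {v} ⊆ A \ {v} := by
    intro w hw
    rw [mem_bd] at hw
    rw [Finset.mem_sdiff]
    exact hw.1
  have h3 : (bd D A {v}).card ≤ A.card - 1 := by
    have h4 := Finset.card_le_card h2
    rwa [Finset.card_sdiff_of_subset (Finset.singleton_subset_iff.2 hv),
      Finset.card_singleton] at h4
  have h5 : Δ * (A.card - 1) ≤ A.card * (A.card - 1) := by
    calc Δ * (A.card - 1) ≤ (bd D A {v}).card * A.card := h1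
      _ ≤ (A.card - 1) * A.card := Nat.mul_le_mul_right _ h3
      _ = A.card * (A.card - 1) := Nat.mul_comm _ _
  exact Nat.le_of_mul_le_mul_right h5 (by omega)

theorem ent_nonneg {V : Type} [Fintype V] [DecidableEq V] (D : V → V → Prop)
    (A : Finset V) (𝓕 : Finset (Finset V)) (x : Finset V → ℝ) (hx : ∀ F, 0 ≤ x F) (v : V) :
    0 ≤ ent D A 𝓕 x v := Finset.sum_nonneg (fun F _ => hx F)

/-- `Σ_{v ∈ X} y v * (weight of the sets related to v) = Σ_F x F * Σ ...` -/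
theorem swap {V : Type} [DecidableEq V] (X : Finset V) (𝓕 : Finset (Finset V))
    (S : Finset V → Finset V) (x : Finset V → ℝ) (y : V → ℝ) :
    ∑ v ∈ X, y v * ∑ F ∈ 𝓕.filter (fun F => v ∈ S F), x F =
      ∑ F ∈ 𝓕, x F * ∑ v ∈ S F ∩ X, y v := by
  have h1 : ∀ v ∈ X, y v * ∑ F ∈ 𝓕.filter (fun F => v ∈ S F), x F =
      ∑ F ∈ 𝓕, if v ∈ S F then x F * y v else 0 := by
    intro v _
    rw [Finset.sum_filter, Finset.mul_sum]
    refine Finset.sum_congr rfl (fun F _ => ?_)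
    split_ifs <;> ring
  rw [Finset.sum_congr rfl h1, Finset.sum_comm]
  refine Finset.sum_congr rfl (fun F _ => ?_)
  rw [Finset.mul_sum, ← Finset.sum_filter]
  refine Finset.sum_congr ?_ (fun v _ => rfl)
  ext v
  simp [and_comm]

end GOODX

theorem good_proof (h1 : Stmt_LPD) (h2 : Stmt_LOC) (h3 : Stmt_DBL) : Stmt_GOOD := by
  intro V i1 i2 D A G k Δ hk hA hΔ hE hG
  classical
  by_contra hcon
  push Not at hcon
  have hAΔ : Δ ≤ A.card := GOODX.card_ge D A Δ hA hE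
  have h256 : 256 ≤ Δ := by
    calc 256 = 64 * 1 * (1 + 1) ^ 2 := by norm_num
      _ ≤ 64 * k * (k + 1) ^ 2 := by gcongr
      _ ≤ Δ := hΔ
  set X : Finset V := A \ G with hX
  set 𝓕 : Finset (Finset V) := Finset.univ.filter (fun F => Bad D A k F) with h𝓕
  have hbad : ∀ F ∈ 𝓕, Bad D A k F := fun F hF => (Finset.mem_filter.1 hF).2
  have hcovX : ∀ v ∈ X, ∃ F ∈ 𝓕, v ∈ F := by
    intro v hv
    rw [hX, Finset.mem_sdiff] at hv
    have hng : ¬ Good D A k v := fun hg => hv.2 (hG v hv.1 hg)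
    unfold Good at hng
    push Not at hng
    obtain ⟨F, hF, hvF⟩ := hng
    exact ⟨F, Finset.mem_filter.2 ⟨Finset.mem_univ _, hF⟩, hvF⟩
  have hXne : X.Nonempty := by
    rw [← Finset.card_pos]
    have h4 : A.card - G.card ≤ X.card := by
      have := Finset.le_card_sdiff G A
      exact this
    omega
  obtain ⟨x, y, hx, hy, hcov, hpack, hNY⟩ := h1 V X 𝓕 hcovX
  set N : ℝ := ∑ F ∈ 𝓕, x F with hN
  set Y : ℝ := ∑ v ∈ X, y v with hY
  have hN1 : 1 ≤ N := by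
    obtain ⟨v, hv⟩ := hXne
    calc (1 : ℝ) ≤ ∑ F ∈ 𝓕.filter (fun F => v ∈ F), x F := hcov v hv
      _ ≤ N := Finset.sum_le_sum_of_subset_of_nonneg (Finset.filter_subset _ _)
          (fun F _ _ => hx F)
  have hY1 : 1 ≤ Y := hN1.trans hNY
  have hy1 : ∀ v ∈ X, y v ≤ 1 := by
    intro v hv
    obtain ⟨F, hF, hvF⟩ := hcovX v hv
    calc y v ≤ ∑ u ∈ F ∩ X, y u :=
          Finset.single_le_sum (fun u _ => hy u) (Finset.mem_inter.2 ⟨hvF, hv⟩)
      _ ≤ 1 := hpack F hF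
  -- complementary slackness
  have hs1 : ∑ v ∈ X, y v * cov 𝓕 x v ≤ N := by
    have h4 := GOODX.swap X 𝓕 (fun F => F) x y
    unfold cov
    rw [h4]
    refine Finset.sum_le_sum (fun F hF => ?_)
    calc x F * ∑ v ∈ F ∩ X, y v ≤ x F * 1 := mul_le_mul_of_nonneg_left (hpack F hF) (hx F)
      _ = x F := mul_one _
  have hcov1 : ∀ v ∈ X, 0 < y v → cov 𝓕 x v ≤ 1 := by
    intro v hv hyv
    have h5 : ∑ u ∈ X, y u * (cov 𝓕 x u - 1) ≤ 0 := by
      have h6 : ∑ u ∈ X, y u * (cov 𝓕 x u - 1) = ∑ u ∈ X, y u * cov 𝓕 x u - Y := by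
        rw [hY, ← Finset.sum_sub_distrib]
        exact Finset.sum_congr rfl (fun u _ => by ring)
      rw [h6]
      linarith
    have h7 : ∀ u ∈ X, 0 ≤ y u * (cov 𝓕 x u - 1) := fun u hu =>
      mul_nonneg (hy u) (sub_nonneg.2 (hcov u hu))
    have h8 : y v * (cov 𝓕 x v - 1) ≤ 0 :=
      (Finset.single_le_sum h7 hv).trans h5
    by_contra h9
    push Not at h9
    have h10 : 0 < y v * (cov 𝓕 x v - 1) := mul_pos hyv (by linarith)
    linarith
  -- entrance weights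
  have hent : ∑ v ∈ X, y v * ent D A 𝓕 x v ≤ (k : ℝ) * Y := by
    have h4 := GOODX.swap X 𝓕 (fun F => ib D A F) x y
    unfold ent
    rw [h4]
    calc ∑ F ∈ 𝓕, x F * ∑ v ∈ ib D A F ∩ X, y v ≤ ∑ F ∈ 𝓕, x F * (k : ℝ) := by
          refine Finset.sum_le_sum (fun F hF => mul_le_mul_of_nonneg_left ?_ (hx F))
          calc ∑ v ∈ ib D A F ∩ X, y v ≤ ∑ v ∈ ib D A F ∩ X, (1 : ℝ) :=
                Finset.sum_le_sum (fun v hv => hy1 v (Finset.mem_inter.1 hv).2)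
            _ = ((ib D A F ∩ X).card : ℝ) := by
                rw [Finset.sum_const, nsmul_eq_mul, mul_one]
            _ ≤ ((ib D A F).card : ℝ) := by
                exact_mod_cast Finset.card_le_card Finset.inter_subset_left
            _ ≤ (k : ℝ) := by exact_mod_cast (hbad F hF).2.2
      _ = (k : ℝ) * N := by rw [← Finset.sum_mul, mul_comm]
      _ ≤ (k : ℝ) * Y := mul_le_mul_of_nonneg_left hNY (Nat.cast_nonneg k)
  have hk0 : (0 : ℝ) < k := by exact_mod_cast hk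
  have hmark : Y / 2 ≤ ∑ v ∈ X.filter (fun v => ent D A 𝓕 x v ≤ 2 * (k : ℝ)), y v := by
    have h4 : ∑ v ∈ X.filter (fun v => ent D A 𝓕 x v ≤ 2 * (k : ℝ)), y v +
        ∑ v ∈ X.filter (fun v => ¬ ent D A 𝓕 x v ≤ 2 * (k : ℝ)), y v = Y :=
      Finset.sum_filter_add_sum_filter_not X _ _
    have h5 : 2 * (k : ℝ) * ∑ v ∈ X.filter (fun v => ¬ ent D A 𝓕 x v ≤ 2 * (k : ℝ)), y v ≤
        (k : ℝ) * Y := by
      refine le_trans ?_ hent
      calc 2 * (k : ℝ) * ∑ v ∈ X.filter (fun v => ¬ ent D A 𝓕 x v ≤ 2 * (k : ℝ)), y v =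
            ∑ v ∈ X.filter (fun v => ¬ ent D A 𝓕 x v ≤ 2 * (k : ℝ)), y v * (2 * (k : ℝ)) := by
            rw [Finset.mul_sum]
            exact Finset.sum_congr rfl (fun v _ => mul_comm _ _)
        _ ≤ ∑ v ∈ X.filter (fun v => ¬ ent D A 𝓕 x v ≤ 2 * (k : ℝ)),
              y v * ent D A 𝓕 x v := by
            refine Finset.sum_le_sum (fun v hv => mul_le_mul_of_nonneg_left ?_ (hy v))
            exact (not_le.1 (Finset.mem_filter.1 hv).2).le
        _ ≤ ∑ v ∈ X, y v * ent D A 𝓕 x v :=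
            Finset.sum_le_sum_of_subset_of_nonneg (Finset.filter_subset _ _)
              (fun v _ _ => mul_nonneg (hy v) (GOODX.ent_nonneg D A 𝓕 x hx v))
    have h6 : 2 * ∑ v ∈ X.filter (fun v => ¬ ent D A 𝓕 x v ≤ 2 * (k : ℝ)), y v ≤ Y := by
      have h7 : (k : ℝ) * (2 * ∑ v ∈ X.filter (fun v => ¬ ent D A 𝓕 x v ≤ 2 * (k : ℝ)), y v) ≤
          (k : ℝ) * Y := by linarith
      exact le_of_mul_le_mul_left h7 hk0
    linarith
  -- lower bound
  have hR0 : ∀ v, 0 ≤ ∑ w ∈ reg D A X 𝓕 x k v, ent D A 𝓕 x w := fun v =>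
    Finset.sum_nonneg (fun w _ => GOODX.ent_nonneg D A 𝓕 x hx w)
  have hlow : Y / 2 * ((Δ : ℝ) / 8) ≤
      ∑ v₀ ∈ X, y v₀ * ∑ w ∈ reg D A X 𝓕 x k v₀, ent D A 𝓕 x w := by
    calc Y / 2 * ((Δ : ℝ) / 8) ≤
          (∑ v ∈ X.filter (fun v => ent D A 𝓕 x v ≤ 2 * (k : ℝ)), y v) * ((Δ : ℝ) / 8) :=
          mul_le_mul_of_nonneg_right hmark (by positivity)
      _ = ∑ v ∈ X.filter (fun v => ent D A 𝓕 x v ≤ 2 * (k : ℝ)), y v * ((Δ : ℝ) / 8) :=
          Finset.sum_mul _ _ _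
      _ ≤ ∑ v ∈ X.filter (fun v => ent D A 𝓕 x v ≤ 2 * (k : ℝ)),
            y v * ∑ w ∈ reg D A X 𝓕 x k v, ent D A 𝓕 x w := by
          refine Finset.sum_le_sum (fun v hv => ?_)
          obtain ⟨hvX, hve⟩ := Finset.mem_filter.1 hv
          rcases (hy v).eq_or_lt with h0 | h0
          · rw [← h0, zero_mul, zero_mul]
          · exact mul_le_mul_of_nonneg_left (h2 V D A X G 𝓕 x k Δ v (by omega) hcon hE rfl
              hbad hx (fun u hu => hcov u hu) hvX (hcov1 v hvX h0) hve) (hy v)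
      _ ≤ ∑ v₀ ∈ X, y v₀ * ∑ w ∈ reg D A X 𝓕 x k v₀, ent D A 𝓕 x w :=
          Finset.sum_le_sum_of_subset_of_nonneg (Finset.filter_subset _ _)
            (fun v _ _ => mul_nonneg (hy v) (hR0 v))
  have hup := h3 V D A X 𝓕 x y k Finset.sdiff_subset hbad hx hy hcovX hpack
  have hΔ' : 64 * (k : ℝ) * ((k : ℝ) + 1) ^ 2 ≤ (Δ : ℝ) := by exact_mod_cast hΔ
  have hc0 : 0 ≤ 2 * (1 + (k : ℝ)) * (2 * (k : ℝ) + 3 / 2) * (k : ℝ) := by positivity
  have hfin : Y / 2 * ((Δ : ℝ) / 8) ≤ 2 * (1 + (k : ℝ)) * (2 * (k : ℝ) + 3 / 2) * (k : ℝ) * Y :=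
    (hlow.trans hup).trans (mul_le_mul_of_nonneg_left hNY hc0)
  have hY0 : 0 < Y := by linarith
  have h11 : (Δ : ℝ) / 16 ≤ 2 * (1 + (k : ℝ)) * (2 * (k : ℝ) + 3 / 2) * (k : ℝ) := by
    have h12 : Y * ((Δ : ℝ) / 16) ≤
        Y * (2 * (1 + (k : ℝ)) * (2 * (k : ℝ) + 3 / 2) * (k : ℝ)) := by linarith
    exact le_of_mul_le_mul_left h12 hY0
  nlinarith [mul_pos hk0 (show (0 : ℝ) < (k : ℝ) + 1 by linarith)]

end Pool.Agent.CDS
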