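import Pool.Agent.CDS.Stmts

/-!
# Module HALL: Hall's theorem gives an injective successor function
-/

set_option autoImplicit false

namespace Pool.Agent.CDS

open Finset

namespace HALLX

/-- the index type -/
abbrev Idx {V : Type} (W T B : Finset V) (k : ℕ) : Type :=
  {w : V // w ∈ W ∧ w ∉ T} ⊕ ({b : V // b ∈ B} × Fin k)

/-- the sets -/
noncomputable def tt {V : Type} [Fintype V] [DecidableEq V] (D : V → V → Prop)
    (W T B : Finset V) (k : ℕ) : Idx W T B k → Finset V
  | Sum.inl w => insert w.1 (nb D w.1 ∩ W)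
  | Sum.inr p => nb D p.1.1 ∩ W

theorem hall_cond {V : Type} [Fintype V] [DecidableEq V] (D : V → V → Prop)
    (W T B : Finset V) (k : ℕ) (hBW : Disjoint B W) (hL : Linkable D W T k B)
    (s : Finset (Idx W T B k)) : s.card ≤ (s.biUnion (tt D W T B k)).card := by
  classical
  let S1 : Finset V := s.toLeft.map (Function.Embedding.subtype _)
  let B1 : Finset V := s.toRight.image (fun p => p.1.1)
  have hB1 : B1 ⊆ B := by
    intro v hv
    obtain ⟨p, -, rfl⟩ := Finset.mem_image.1 hv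
    exact p.1.2
  have hS1 : ∀ v ∈ S1, v ∈ W ∧ v ∉ T := by
    intro v hv
    obtain ⟨p, -, rfl⟩ := Finset.mem_map.1 hv
    exact p.2
  have hadm : Adm W T (S1 ∪ B1) := by
    intro v hv hvW
    rcases Finset.mem_union.1 hv with h | h
    · exact (hS1 v h).2
    · exact absurd hvW (Finset.disjoint_left.1 hBW (hB1 h))
  have h1 : k * B1.card ≤ (bd D W (S1 ∪ B1)).card := by
    refine le_trans ?_ (hL (S1 ∪ B1) hadm)
    refine Nat.mul_le_mul_left k (Finset.card_le_card ?_)
    intro v hv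
    exact Finset.mem_inter.2 ⟨hB1 hv, Finset.mem_union_right _ hv⟩
  have h2 : s.toRight.card ≤ k * B1.card := by
    have : s.toRight ⊆ (Finset.univ.filter (fun b : {b : V // b ∈ B} => b.1 ∈ B1)) ×ˢ
        (Finset.univ : Finset (Fin k)) := by
      intro p hp
      refine Finset.mem_product.2 ⟨?_, Finset.mem_univ _⟩
      exact Finset.mem_filter.2 ⟨Finset.mem_univ _, Finset.mem_image.2 ⟨p, hp, rfl⟩⟩
    refine le_trans (Finset.card_le_card this) ?_
    rw [Finset.card_product, Finset.card_univ, Fintype.card_fin, mul_comm]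
    refine Nat.mul_le_mul_left k ?_
    have h3 : (Finset.univ.filter (fun b : {b : V // b ∈ B} => b.1 ∈ B1)).map
        (Function.Embedding.subtype _) ⊆ B1 := by
      intro v hv
      obtain ⟨p, hp, rfl⟩ := Finset.mem_map.1 hv
      exact (Finset.mem_filter.1 hp).2
    have h4 := Finset.card_le_card h3
    rwa [Finset.card_map] at h4
  have h3 : s.toLeft.card = S1.card := by
    rw [Finset.card_map]
  have h4 : S1 ∪ bd D W (S1 ∪ B1) ⊆ s.biUnion (tt D W T B k) := by
    intro v hv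
    rcases Finset.mem_union.1 hv with h | h
    · obtain ⟨p, hp, rfl⟩ := Finset.mem_map.1 h
      refine Finset.mem_biUnion.2 ⟨Sum.inl p, Finset.mem_toLeft.1 hp, ?_⟩
      exact Finset.mem_insert_self _ _
    · rw [mem_bd] at h
      obtain ⟨⟨hvW, -⟩, a, ha, hav⟩ := h
      rcases Finset.mem_union.1 ha with h' | h'
      · obtain ⟨p, hp, rfl⟩ := Finset.mem_map.1 h'
        refine Finset.mem_biUnion.2 ⟨Sum.inl p, Finset.mem_toLeft.1 hp, ?_⟩
        exact Finset.mem_insert_of_mem (Finset.mem_inter.2 ⟨(mem_nb D _ _).2 hav, hvW⟩)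
      · obtain ⟨p, hp, rfl⟩ := Finset.mem_image.1 h'
        refine Finset.mem_biUnion.2 ⟨Sum.inr p, Finset.mem_toRight.1 hp, ?_⟩
        exact Finset.mem_inter.2 ⟨(mem_nb D _ _).2 hav, hvW⟩
  have h5 : Disjoint S1 (bd D W (S1 ∪ B1)) := by
    refine Finset.disjoint_left.2 ?_
    intro v hv hv'
    rw [mem_bd] at hv'
    exact hv'.1.2 (Finset.mem_union_left _ hv)
  have h6 := Finset.card_le_card h4
  rw [Finset.card_union_of_disjoint h5] at h6
  have h7 := Finset.card_toLeft_add_card_toRight (u := s)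
  omega

end HALLX

open HALLX in
theorem hall_proof : Stmt_HALL := by
  intro V _ _ D W T B k hBW hL
  classical
  obtain ⟨f, hf, hft⟩ :=
    (Finset.all_card_le_biUnion_card_iff_exists_injective (tt D W T B k)).1
      (hall_cond D W T B k hBW hL)
  refine ⟨fun w => if h : w ∈ W ∧ w ∉ T then f (Sum.inl ⟨w, h⟩) else w,
    fun b i => if h : b ∈ B ∧ i < k then f (Sum.inr (⟨b, h.1⟩, ⟨i, h.2⟩)) else b,
    ?_, ?_, ?_, ?_, ?_⟩
  · intro w hw hwT
    simp only [dif_pos (show w ∈ W ∧ w ∉ T from ⟨hw, hwT⟩)]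
    have h := hft (Sum.inl ⟨w, hw, hwT⟩)
    rcases Finset.mem_insert.1 h with h | h
    · rw [h]
      exact ⟨hw, Or.inr rfl⟩
    · have h' := Finset.mem_inter.1 h
      exact ⟨h'.2, Or.inl ((mem_nb D _ _).1 h'.1)⟩
  · intro b hb i hi
    simp only [dif_pos (show b ∈ B ∧ i < k from ⟨hb, hi⟩)]
    have h := hft (Sum.inr (⟨b, hb⟩, ⟨i, hi⟩))
    have h' := Finset.mem_inter.1 h
    exact ⟨h'.2, (mem_nb D _ _).1 h'.1⟩
  · intro w hw hwT w' hw' hwT' h
    simp only [dif_pos (show w ∈ W ∧ w ∉ T from ⟨hw, hwT⟩),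
      dif_pos (show w' ∈ W ∧ w' ∉ T from ⟨hw', hwT'⟩)] at h
    have h' := hf h
    have h'' := Sum.inl_injective h'
    exact congrArg Subtype.val h''
  · intro b hb i hi b' hb' j hj h
    simp only [dif_pos (show b ∈ B ∧ i < k from ⟨hb, hi⟩),
      dif_pos (show b' ∈ B ∧ j < k from ⟨hb', hj⟩)] at h
    have h' := Sum.inr_injective (hf h)
    have e1 := congrArg (fun p => p.1.1) h'
    have e2 := congrArg (fun p => p.2.1) h'
    simp only at e1 e2
    rw [e1, e2]
  · intro b hb i hi w hw hwT h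
    simp only [dif_pos (show b ∈ B ∧ i < k from ⟨hb, hi⟩),
      dif_pos (show w ∈ W ∧ w ∉ T from ⟨hw, hwT⟩)] at h
    have h' := hf h
    exact absurd h' (by simp)

end Pool.Agent.CDS
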