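import Pool.Agent.CDS.Stmts

/-!
# CDS, module HSTEP: the deterministic step
-/

set_option autoImplicit false

namespace Pool.Agent.CDS

open Finset

namespace HSTEPX

theorem rw_mono {V : Type} {D : V → V → Prop} {W W' : Finset V} (h : W ⊆ W') {v b : V}
    (hvb : RW D W v b) : RW D W' v b := by
  unfold RW at hvb ⊢
  induction hvb with
  | single hxy => exact Relation.TransGen.single ⟨hxy.1, h hxy.2⟩
  | tail _ hxy ih => exact Relation.TransGen.tail ih ⟨hxy.1, h hxy.2⟩

/-- Half of a hitting set. -/
theorem half {V : Type} [Fintype V] [DecidableEq V] (D : V → V → Prop) (W : Finset V) (m : ℕ)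
    (h : Hit D W m) : ∃ R : Finset V, R.card ≤ (m + 1) / 2 ∧ ∃ X : Finset V,
      Fintype.card V ≤ 2 * X.card ∧ ∀ v ∈ X, ∃ b ∈ R, RW D W v b := by
  classical
  obtain ⟨R, hR, hhit⟩ := h
  obtain ⟨R1, hR1, hc1⟩ := Finset.exists_subset_card_eq (Nat.div_le_self R.card 2)
  set R2 := R \ R1 with hR2
  have hc2 : R2.card = R.card - R.card / 2 := by
    rw [hR2, Finset.card_sdiff_of_subset hR1, hc1]
  let X : Finset V → Finset V := fun R => Finset.univ.filter (fun v => ∃ b ∈ R, RW D W v b)
  have hX : ∀ R, ∀ v ∈ X R, ∃ b ∈ R, RW D W v b := fun R v hv => (Finset.mem_filter.1 hv).2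
  have hun : X R1 ∪ X R2 = Finset.univ := by
    ext v
    simp only [Finset.mem_union, Finset.mem_univ, iff_true]
    obtain ⟨b, hb, hvb⟩ := hhit v
    by_cases h1 : b ∈ R1
    · exact Or.inl (Finset.mem_filter.2 ⟨Finset.mem_univ _, b, h1, hvb⟩)
    · exact Or.inr (Finset.mem_filter.2 ⟨Finset.mem_univ _, b, Finset.mem_sdiff.2 ⟨hb, h1⟩, hvb⟩)
  have hcard : Fintype.card V ≤ (X R1).card + (X R2).card := by
    have := Finset.card_union_le (X R1) (X R2)
    rwa [hun, Finset.card_univ] at this
  by_cases h1 : Fintype.card V ≤ 2 * (X R1).card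
  · exact ⟨R1, by omega, X R1, h1, hX R1⟩
  · exact ⟨R2, by omega, X R2, by omega, hX R2⟩

end HSTEPX

open HSTEPX in
theorem hstep_proof (h : Stmt_RANK) : Stmt_HSTEP := by
  classical
  intro V _ _ D Δ _ hrob
  have key : ∀ W : Finset V, ∃ HW : V → Finset V, (∀ v, Δ ≤ (HW v).card) ∧
      (∀ v, HW v ⊆ nb D v) ∧ ∀ (W' : Finset V) (j : ℕ), W ⊆ W' → Hit D W (2 ^ (j + 1)) →
        (∀ v, ∃ u ∈ HW v, u ∈ W') → Hit D W' (2 ^ j) := by
    intro W
    by_cases hex : ∃ m, Hit D W m
    · obtain ⟨R, hR, X, hX, hXR⟩ := half D W (Nat.find hex) (Nat.find_spec hex)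
      obtain ⟨rk, hrk⟩ := h V D Δ X hrob hX
      refine ⟨fun v => if v ∈ X then nb D v else (nb D v).filter (fun u => rk u < rk v),
        ?_, ?_, ?_⟩
      · intro v
        by_cases hv : v ∈ X
        · simp only [hv, if_true]
          exact hrob.1 v
        · simp only [hv, if_false]
          exact hrk v hv
      · intro v
        by_cases hv : v ∈ X
        · simp only [hv, if_true]
          exact Finset.Subset.refl _
        · simp only [hv, if_false]
          exact Finset.filter_subset _ _
      · intro W' j hWW hhit hmeet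
        have hm : Nat.find hex ≤ 2 ^ (j + 1) := Nat.find_min' hex hhit
        refine ⟨R, ?_, ?_⟩
        · have : 2 ^ (j + 1) = 2 * 2 ^ j := by ring
          omega
        · have hind : ∀ n : ℕ, ∀ v, rk v = n → ∃ b ∈ R, RW D W' v b := by
            intro n
            induction n using Nat.strong_induction_on with
            | _ n ih =>
              intro v hv
              by_cases hvX : v ∈ X
              · obtain ⟨b, hb, hvb⟩ := hXR v hvX
                exact ⟨b, hb, rw_mono hWW hvb⟩
              · obtain ⟨u, hu, huW⟩ := hmeet v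
                simp only [hvX, if_false] at hu
                rw [Finset.mem_filter, mem_nb] at hu
                obtain ⟨b, hb, hub⟩ := ih (rk u) (by rw [← hv]; exact hu.2) u rfl
                exact ⟨b, hb, Relation.TransGen.head ⟨hu.1, huW⟩ hub⟩
          exact fun v => hind _ v rfl
    · refine ⟨fun v => nb D v, hrob.1, fun v => Finset.Subset.refl _, ?_⟩
      intro W' j _ hhit _
      exact absurd ⟨_, hhit⟩ hex
  choose H h1 h2 h3 using key
  exact ⟨H, h1, h2, h3⟩

end Pool.Agent.CDS
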