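import Pool.Agent.CDS.Stmts

/-!
# LAB: the labelling lemma
-/

set_option autoImplicit false

namespace Pool.Agent.CDS

open Finset

namespace LABX

theorem pow_ineq {a n : ℕ} (h1 : 1 ≤ a) (h2 : a ≤ n) (h : ℕ) :
    (a - 1) ^ h * n ^ h ≤ (n - 1) ^ h * a ^ h := by
  rw [← mul_pow, ← mul_pow]
  apply Nat.pow_le_pow_left
  obtain ⟨b, rfl⟩ : ∃ b, a = b + 1 := ⟨a - 1, by omega⟩
  obtain ⟨m, rfl⟩ : ∃ m, n = m + 1 := ⟨n - 1, by omega⟩
  simp only [Nat.add_sub_cancel]
  nlinarith

/-- products which differ on `H'` -/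
theorem prod_ineq {V : Type} [Fintype V] [DecidableEq V] (g g0 : V → ℕ) (H' : Finset V)
    (a n : ℕ) (h1 : 1 ≤ a) (h2 : a ≤ n) (hg : ∀ v ∈ H', g v = a - 1) (hg0 : ∀ v ∈ H', g0 v = a)
    (he : ∀ v, v ∉ H' → g v = g0 v) :
    (∏ v, g v) * n ^ H'.card ≤ (n - 1) ^ H'.card * ∏ v, g0 v := by
  have e1 : ∏ v, g v = (a - 1) ^ H'.card * ∏ v ∈ H'ᶜ, g0 v := by
    rw [← Finset.prod_mul_prod_compl H' g, Finset.prod_congr rfl hg, Finset.prod_const]
    congr 1
    apply Finset.prod_congr rfl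
    intro v hv
    exact he v (by simpa using hv)
  have e2 : ∏ v, g0 v = a ^ H'.card * ∏ v ∈ H'ᶜ, g0 v := by
    rw [← Finset.prod_mul_prod_compl H' g0, Finset.prod_congr rfl hg0, Finset.prod_const]
  rw [e1, e2]
  have := pow_ineq h1 h2 H'.card
  calc (a - 1) ^ H'.card * (∏ v ∈ H'ᶜ, g0 v) * n ^ H'.card
      = ((a - 1) ^ H'.card * n ^ H'.card) * ∏ v ∈ H'ᶜ, g0 v := by ring
    _ ≤ ((n - 1) ^ H'.card * a ^ H'.card) * ∏ v ∈ H'ᶜ, g0 v := Nat.mul_le_mul_right _ this
    _ = (n - 1) ^ H'.card * (a ^ H'.card * ∏ v ∈ H'ᶜ, g0 v) := by ring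

variable {V Λ : Type} [Fintype V] [DecidableEq V] [Fintype Λ] [DecidableEq Λ]

/-- the set of vertices with label in `P` -/
def Wf (P : Finset Λ) (f : V → Λ) : Finset V := Finset.univ.filter (fun v => f v ∈ P)

omit [DecidableEq V] [Fintype Λ] in
theorem mem_Wf (P : Finset Λ) (f : V → Λ) (v : V) : v ∈ Wf P f ↔ f v ∈ P := by
  simp [Wf]

theorem fiber_eq (P : Finset Λ) (W : Finset V) :
    (Finset.univ : Finset (V → Λ)).filter (fun f => Wf P f = W) =
      Fintype.piFinset (fun v => if v ∈ W then P else Pᶜ) := by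
  ext f
  rw [Finset.mem_filter, Fintype.mem_piFinset]
  constructor
  · rintro ⟨-, h⟩ v
    by_cases hv : v ∈ W
    · rw [if_pos hv]
      rw [← h, mem_Wf] at hv
      exact hv
    · rw [if_neg hv]
      rw [← h, mem_Wf] at hv
      rw [Finset.mem_compl]
      exact hv
  · intro h
    refine ⟨Finset.mem_univ _, ?_⟩
    ext v
    rw [mem_Wf]
    have := h v
    by_cases hv : v ∈ W
    · rw [if_pos hv] at this
      exact ⟨fun _ => hv, fun _ => this⟩
    · rw [if_neg hv, Finset.mem_compl] at this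
      exact ⟨fun h' => absurd h' this, fun h' => absurd h' hv⟩

theorem fiber_bound (P : Finset Λ) (l : Λ) (hl : l ∉ P) (H : Finset V → Finset V) (h : ℕ)
    (hH : ∀ W, h ≤ (H W).card) (W : Finset V) (Bad : Finset (V → Λ))
    (hBad : ∀ f ∈ Bad, ∀ u ∈ H (Wf P f), f u ∉ P ∧ f u ≠ l) :
    (Bad.filter (fun f => Wf P f = W)).card * Fintype.card Λ ^ h ≤
      (Fintype.card Λ - 1) ^ h *
        ((Finset.univ : Finset (V → Λ)).filter (fun f => Wf P f = W)).card := by
  by_cases hW : ∃ u ∈ H W, u ∈ W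
  · obtain ⟨u, hu, huW⟩ := hW
    have : Bad.filter (fun f => Wf P f = W) = ∅ := by
      rw [Finset.filter_eq_empty_iff]
      intro f hf hfW
      have h1 := (hBad f hf u (by rw [hfW]; exact hu)).1
      rw [← hfW, mem_Wf] at huW
      exact h1 huW
    rw [this, Finset.card_empty, zero_mul]
    exact Nat.zero_le _
  · push Not at hW
    obtain ⟨H', hH', hcard⟩ := Finset.exists_subset_card_eq (hH W)
    have hsub : Bad.filter (fun f => Wf P f = W) ⊆ Fintype.piFinset
        (fun v => if v ∈ W then P else if v ∈ H' then Pᶜ.erase l else Pᶜ) := by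
      intro f hf
      rw [Finset.mem_filter] at hf
      obtain ⟨hf, hfW⟩ := hf
      rw [Fintype.mem_piFinset]
      intro v
      by_cases hv : v ∈ W
      · rw [if_pos hv]
        rw [← hfW, mem_Wf] at hv
        exact hv
      · rw [if_neg hv]
        have hv' : f v ∉ P := by
          rw [← hfW, mem_Wf] at hv
          exact hv
        by_cases hvH : v ∈ H'
        · rw [if_pos hvH, Finset.mem_erase, Finset.mem_compl]
          exact ⟨(hBad f hf v (by rw [hfW]; exact hH' hvH)).2, hv'⟩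
        · rw [if_neg hvH, Finset.mem_compl]
          exact hv'
    rw [fiber_eq, Fintype.card_piFinset]
    have hc := Finset.card_le_card hsub
    rw [Fintype.card_piFinset] at hc
    refine le_trans (Nat.mul_le_mul_right _ hc) ?_
    rw [← hcard]
    have hlc : l ∈ Pᶜ := by rw [Finset.mem_compl]; exact hl
    apply prod_ineq _ _ H' (Pᶜ).card (Fintype.card Λ)
    · exact Finset.card_pos.mpr ⟨l, hlc⟩
    · exact Finset.card_le_univ _
    · intro v hv
      have hvW : v ∉ W := hW v (hH' hv)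
      rw [if_neg hvW, if_pos hv, Finset.card_erase_of_mem hlc]
    · intro v hv
      have hvW : v ∉ W := hW v (hH' hv)
      rw [if_neg hvW]
    · intro v hv
      by_cases hvW : v ∈ W
      · rw [if_pos hvW, if_pos hvW]
      · rw [if_neg hvW, if_neg hvW, if_neg hv]

theorem bad_bound (P : Finset Λ) (l : Λ) (hl : l ∉ P) (H : Finset V → Finset V) (h : ℕ)
    (hH : ∀ W, h ≤ (H W).card) (Bad : Finset (V → Λ))
    (hBad : ∀ f ∈ Bad, ∀ u ∈ H (Wf P f), f u ∉ P ∧ f u ≠ l) :
    Bad.card * Fintype.card Λ ^ h ≤ (Fintype.card Λ - 1) ^ h * Fintype.card (V → Λ) := by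
  have e1 : Bad.card = ∑ W : Finset V, (Bad.filter (fun f => Wf P f = W)).card :=
    Finset.card_eq_sum_card_fiberwise (fun f _ => by simp)
  have e2 : Fintype.card (V → Λ) = ∑ W : Finset V,
      ((Finset.univ : Finset (V → Λ)).filter (fun f => Wf P f = W)).card := by
    rw [← Finset.card_univ]
    exact Finset.card_eq_sum_card_fiberwise (fun f _ => by simp)
  rw [e1, e2, Finset.sum_mul, Finset.mul_sum]
  exact Finset.sum_le_sum (fun W _ => fiber_bound P l hl H h hH W Bad hBad)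

end LABX

open LABX in
theorem lab_proof : Stmt_LAB := by
  intro V Λ 𝒯 _ _ _ _ _ P l H h hne hl hH hlt
  classical
  by_contra hcon
  push Not at hcon
  -- the bad sets cover everything
  let Bad : 𝒯 → Finset (V → Λ) := fun t => Finset.univ.filter
    (fun f => ∀ u ∈ H t (Wf (P t) f), f u ∉ P t ∧ f u ≠ l t)
  have hcov : (Finset.univ : Finset (V → Λ)) ⊆ Finset.univ.biUnion Bad := by
    intro f _
    obtain ⟨t, ht⟩ := hcon f
    rw [Finset.mem_biUnion]
    refine ⟨t, Finset.mem_univ _, ?_⟩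
    rw [Finset.mem_filter]
    exact ⟨Finset.mem_univ _, fun u hu => ht u hu⟩
  have h1 : Fintype.card (V → Λ) ≤ ∑ t : 𝒯, (Bad t).card := by
    rw [← Finset.card_univ]
    exact le_trans (Finset.card_le_card hcov) Finset.card_biUnion_le
  have h2 : ∀ t, (Bad t).card * Fintype.card Λ ^ h ≤
      (Fintype.card Λ - 1) ^ h * Fintype.card (V → Λ) := by
    intro t
    apply bad_bound (P t) (l t) (hl t) (H t) h (hH t)
    intro f hf
    rw [Finset.mem_filter] at hf
    exact hf.2
  have h3 : Fintype.card (V → Λ) * Fintype.card Λ ^ h ≤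
      Fintype.card 𝒯 * ((Fintype.card Λ - 1) ^ h * Fintype.card (V → Λ)) := by
    calc Fintype.card (V → Λ) * Fintype.card Λ ^ h
        ≤ (∑ t : 𝒯, (Bad t).card) * Fintype.card Λ ^ h := Nat.mul_le_mul_right _ h1
      _ = ∑ t : 𝒯, (Bad t).card * Fintype.card Λ ^ h := by rw [Finset.sum_mul]
      _ ≤ ∑ _t : 𝒯, (Fintype.card Λ - 1) ^ h * Fintype.card (V → Λ) :=
          Finset.sum_le_sum (fun t _ => h2 t)
      _ = _ := by rw [Finset.sum_const, Finset.card_univ, smul_eq_mul]
  have hpos : 0 < Fintype.card (V → Λ) := by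
    haveI : Nonempty (V → Λ) := ⟨fun _ => Classical.choice hne⟩
    exact Fintype.card_pos
  have h4 : Fintype.card (V → Λ) * (Fintype.card 𝒯 * (Fintype.card Λ - 1) ^ h) <
      Fintype.card (V → Λ) * Fintype.card Λ ^ h := Nat.mul_lt_mul_of_pos_left hlt hpos
  have h5 : Fintype.card 𝒯 * ((Fintype.card Λ - 1) ^ h * Fintype.card (V → Λ)) =
      Fintype.card (V → Λ) * (Fintype.card 𝒯 * (Fintype.card Λ - 1) ^ h) := by ring
  omega

end Pool.Agent.CDS
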