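import Pool.Agent.CDS.Stmts

/-!
# Module LINK: the cut condition in the reversed digraph
-/

set_option autoImplicit false

namespace Pool.Agent.CDS

open Finset

theorem link_proof : Stmt_LINK := by
  intro V i1 i2 D S A Z T r s ρ k Δ hr hk hΔ hρ hAS hbd hexp hZA hZr hgood hTS hTr hcore X hadm
  by_contra hcon
  push Not at hcon
  have hZS : Z ⊆ S := hZA.trans hAS
  have hXT : ∀ v ∈ X, v ∉ T := by
    intro v hv hvT
    exact hadm v hv (mem_union_right _ hvT) hvT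
  obtain ⟨B, hB⟩ : ∃ B, B = bd (fun u v => D v u) ((S \ Z) ∪ T) X := ⟨_, rfl⟩
  rw [← hB] at hcon
  have hmB : ∀ w, w ∈ B ↔ (w ∈ (S \ Z) ∪ T ∧ w ∉ X) ∧ ∃ a ∈ X, D w a := by
    intro w
    rw [hB, mem_bd]
  have hZX : (Z ∩ X).card ≤ r := by
    rw [← hZr]
    exact card_le_card inter_subset_left
  have hBr : B.card < r ^ 2 := by
    calc B.card < r * (Z ∩ X).card := hcon
      _ ≤ r * r := Nat.mul_le_mul_left _ hZX
      _ = r ^ 2 := by ring
  -- a vertex of `T` without out-neighbours in `X`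
  obtain ⟨b₀, hb₀T, hb₀B⟩ : ∃ b₀ ∈ T, b₀ ∉ B := by
    by_contra hno
    push Not at hno
    have : T.card ≤ B.card := card_le_card hno
    omega
  have hb₀ : ∀ a ∈ X, ¬ D b₀ a := by
    intro a ha hD
    exact hb₀B ((hmB b₀).2 ⟨⟨mem_union_right _ hb₀T, fun h => hXT b₀ h hb₀T⟩, a, ha, hD⟩)
  -- a vertex of `Z ∩ X`
  obtain ⟨z, hz⟩ : (Z ∩ X).Nonempty := by
    rw [nonempty_iff_ne_empty]
    intro he
    rw [he, card_empty, mul_zero] at hcon
    exact absurd hcon (Nat.not_lt_zero _)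
  have hzZ : z ∈ Z := (mem_inter.1 hz).1
  have hzX : z ∈ X := (mem_inter.1 hz).2
  obtain ⟨Q₁, hQ₁⟩ : ∃ Q₁, Q₁ = (B ∩ S) ∪ (Z \ {z}) := ⟨_, rfl⟩
  have hmQ : ∀ w, w ∈ Q₁ ↔ (w ∈ B ∧ w ∈ S) ∨ (w ∈ Z ∧ w ≠ z) := by
    intro w
    rw [hQ₁]
    simp
  have hQ₁c : Q₁.card ≤ k := by
    have h1 : (Z \ {z}).card = r - 1 := by
      rw [sdiff_singleton_eq_erase, card_erase_of_mem hzZ, hZr]
    have h2 : (B ∩ S).card ≤ B.card := card_le_card inter_subset_left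
    have h3 : Q₁.card ≤ (B ∩ S).card + (Z \ {z}).card := by
      rw [hQ₁]
      exact card_union_le _ _
    omega
  have hQc : (Q₁ ∪ bd D S A).card ≤ ρ := by
    have := card_union_le Q₁ (bd D S A)
    omega
  obtain ⟨b, hb⟩ := hcore _ hQc
  obtain ⟨K, hK⟩ : ∃ K, K = S \ (Q₁ ∪ X) := ⟨_, rfl⟩
  have hmK : ∀ w, w ∈ K ↔ w ∈ S ∧ w ∉ Q₁ ∧ w ∉ X := by
    intro w
    rw [hK]
    simp
  have hclosed : ∀ u ∈ K, ∀ y, D u y → y ∈ S → y ∉ Q₁ → y ∈ K := by
    intro u hu y hD hyS hyQ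
    rw [hmK] at hu
    obtain ⟨huS, huQ, huX⟩ := hu
    rw [hmK]
    refine ⟨hyS, hyQ, fun hyX => huQ ?_⟩
    rw [hmQ]
    by_cases huZ : u ∈ Z
    · right
      refine ⟨huZ, ?_⟩
      rintro rfl
      exact huX hzX
    · left
      refine ⟨(hmB u).2 ⟨⟨mem_union_left _ (mem_sdiff.2 ⟨huS, huZ⟩), huX⟩, y, hyX, hD⟩, huS⟩
  have hbK : b ∈ K := by
    have key : ∀ c, RW D (S \ (Q₁ ∪ bd D S A)) b₀ c → c ∈ K := by
      intro c hc
      induction hc with
      | single h =>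
        obtain ⟨hD, hy⟩ := h
        rw [mem_sdiff, mem_union] at hy
        push Not at hy
        rw [hmK]
        exact ⟨hy.1, hy.2.1, fun hX => hb₀ _ hX hD⟩
      | tail _ h ih =>
        obtain ⟨hD, hy⟩ := h
        rw [mem_sdiff, mem_union] at hy
        push Not at hy
        exact hclosed _ ih _ hD hy.1 hy.2.1
    exact key b (hb b₀)
  have hbA : b ∈ A := by
    have stp : ∀ u ∈ A, ∀ y, D u y → y ∈ S \ (Q₁ ∪ bd D S A) → y ∈ A := by
      intro u hu y hD hy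
      rw [mem_sdiff, mem_union] at hy
      push Not at hy
      by_contra hyA
      exact hy.2.2 ((mem_bd D S A y).2 ⟨⟨hy.1, hyA⟩, u, hu, hD⟩)
    have key : ∀ c, RW D (S \ (Q₁ ∪ bd D S A)) z c → c ∈ A := by
      intro c hc
      induction hc with
      | single h => exact stp _ (hZA hzZ) _ h.1 h.2
      | tail _ h ih => exact stp _ ih _ h.1 h.2
    exact key b (hb z)
  obtain ⟨A', hA'⟩ : ∃ A', A' = K ∩ A := ⟨_, rfl⟩
  have hA'A : A' ⊆ A := by rw [hA']; exact inter_subset_right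
  have hA'K : A' ⊆ K := by rw [hA']; exact inter_subset_left
  have hA'ne : A'.Nonempty := ⟨b, by rw [hA']; exact mem_inter.2 ⟨hbK, hbA⟩⟩
  have hbdA' : bd D A A' ⊆ Q₁ := by
    intro y hy
    rw [mem_bd] at hy
    obtain ⟨⟨hyA, hyA'⟩, u, hu, hD⟩ := hy
    by_contra hyQ
    have := hclosed u (hA'K hu) y hD (hAS hyA) hyQ
    exact hyA' (by rw [hA']; exact mem_inter.2 ⟨this, hyA⟩)
  have hE : Δ * (A.card - A'.card) ≤ k * A.card := by
    calc Δ * (A.card - A'.card) ≤ (bd D A A').card * A.card := hexp A' hA'A hA'ne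
      _ ≤ k * A.card := Nat.mul_le_mul_right _ ((card_le_card hbdA').trans hQ₁c)
  obtain ⟨F, hF⟩ : ∃ F, F = A \ (A' ∪ Q₁) := ⟨_, rfl⟩
  have hmF : ∀ w, w ∈ F ↔ w ∈ A ∧ w ∉ A' ∧ w ∉ Q₁ := by
    intro w
    rw [hF]
    simp
  have hzF : z ∈ F := by
    rw [hmF]
    refine ⟨hZA hzZ, fun h => ?_, fun h => ?_⟩
    · exact ((hmK z).1 (hA'K h)).2.2 hzX
    · rw [hmQ] at h
      rcases h with h | h
      · exact ((hmB z).1 h.1).1.2 hzX
      · exact h.2 rfl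
  have hib : ib D A F ⊆ Q₁ := by
    intro w hw
    rw [mem_ib] at hw
    obtain ⟨⟨hwA, hwF⟩, y, hy, hD⟩ := hw
    by_contra hwQ
    have hwA' : w ∈ A' := by
      by_contra h
      exact hwF ((hmF w).2 ⟨hwA, h, hwQ⟩)
    rw [hmF] at hy
    have := hclosed w (hA'K hwA') y hD (hAS hy.1) hy.2.2
    exact hy.2.1 (by rw [hA']; exact mem_inter.2 ⟨this, hy.1⟩)
  have hFc : F.card ≤ A.card - A'.card := by
    rw [← card_sdiff_of_subset hA'A]
    apply card_le_card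
    intro w hw
    rw [hmF] at hw
    exact mem_sdiff.2 ⟨hw.1, hw.2.1⟩
  have hk1 : 0 < k := by
    rw [hk]
    positivity
  have hbadc : 8 * (1 + 2 * k) * F.card ≤ A.card := by
    have h1 : k * (8 * (1 + 2 * k) * F.card) ≤ k * A.card := by
      calc k * (8 * (1 + 2 * k) * F.card) = (8 * (1 + 2 * k) * k) * F.card := by ring
        _ ≤ Δ * F.card := Nat.mul_le_mul_right _ hΔ
        _ ≤ Δ * (A.card - A'.card) := Nat.mul_le_mul_left _ hFc
        _ ≤ k * A.card := hE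
    exact Nat.le_of_mul_le_mul_left h1 hk1
  exact hgood z hzZ F ⟨by rw [hF]; exact sdiff_subset, hbadc, (card_le_card hib).trans hQ₁c⟩ hzF

end Pool.Agent.CDS
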