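import Pool.Agent.CDS.Stmts

/-!
# LOC: the local estimate
-/

set_option autoImplicit false
set_option linter.unusedSectionVars false

namespace Pool.Agent.CDS

open Finset

namespace LOCX

section
variable {V : Type} [Fintype V] [DecidableEq V]

/-- weight of the sets of `𝓕` with property `p` -/
noncomputable def wt (𝓕 : Finset (Finset V)) (x : Finset V → ℝ) (p : Finset V → Prop) : ℝ := by
  classical exact ∑ F ∈ 𝓕.filter p, x F

theorem wt_eq (𝓕 : Finset (Finset V)) (x : Finset V → ℝ) (p : Finset V → Prop)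
    [DecidablePred p] : ∑ F ∈ 𝓕.filter p, x F = wt 𝓕 x p := by
  unfold wt
  refine Finset.sum_congr ?_ fun _ _ => rfl
  ext F
  simp only [Finset.mem_filter]

theorem wt_mono {𝓕 : Finset (Finset V)} {x : Finset V → ℝ} (hx : ∀ F, 0 ≤ x F)
    {p q : Finset V → Prop} (h : ∀ F ∈ 𝓕, p F → q F) : wt 𝓕 x p ≤ wt 𝓕 x q := by
  classical
  rw [← wt_eq, ← wt_eq]
  refine Finset.sum_le_sum_of_subset_of_nonneg ?_ fun F _ _ => hx F
  intro F hF
  rw [Finset.mem_filter] at hF ⊢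
  exact ⟨hF.1, h F hF.1 hF.2⟩

theorem wt_or {𝓕 : Finset (Finset V)} {x : Finset V → ℝ} (hx : ∀ F, 0 ≤ x F)
    {p q : Finset V → Prop} : wt 𝓕 x (fun F => p F ∨ q F) ≤ wt 𝓕 x p + wt 𝓕 x q := by
  classical
  rw [← wt_eq, ← wt_eq, ← wt_eq, Finset.filter_or]
  exact Finset.sum_union_inter (s₁ := 𝓕.filter p) (s₂ := 𝓕.filter q) (f := x) ▸
    le_add_of_nonneg_right (Finset.sum_nonneg fun F _ => hx F)

theorem wt_split {𝓕 : Finset (Finset V)} {x : Finset V → ℝ} (p q : Finset V → Prop) :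
    wt 𝓕 x p = wt 𝓕 x (fun F => p F ∧ q F) + wt 𝓕 x (fun F => p F ∧ ¬ q F) := by
  classical
  rw [← wt_eq, ← wt_eq, ← wt_eq, ← Finset.filter_filter, ← Finset.filter_filter,
    Finset.sum_filter_add_sum_filter_not]

theorem wt_false {𝓕 : Finset (Finset V)} {x : Finset V → ℝ} {p : Finset V → Prop}
    (h : ∀ F ∈ 𝓕, ¬ p F) : wt 𝓕 x p = 0 := by
  classical
  rw [← wt_eq, Finset.filter_false_of_mem h, Finset.sum_empty]

end

end LOCX

open LOCX in
theorem loc_proof (hCOAR : Stmt_COAR) : Stmt_LOC := by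
  intro V _ _ D A X G 𝓕 x k Δ v₀ hA4 hG hE hX hbad hx hcov hv₀ hcv₀ hent
  have hXA : X ⊆ A := by rw [hX]; exact Finset.sdiff_subset
  have hcovw : ∀ v, cov 𝓕 x v = wt 𝓕 x (fun F => v ∈ F) := fun v => wt_eq _ _ _
  have hentw : ∀ v, ent D A 𝓕 x v = wt 𝓕 x (fun F => v ∈ ib D A F) := fun v => wt_eq _ _ _
  have hcomw : ∀ w, com D A 𝓕 x v₀ w =
      wt 𝓕 x (fun F => w ∈ F ∧ (v₀ ∈ F ∨ v₀ ∈ ib D A F)) := fun v => wt_eq _ _ _
  have hk0 : (0:ℝ) ≤ k := Nat.cast_nonneg k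
  -- total weight of the sets touching `v₀`
  have hP0 : wt 𝓕 x (fun F => v₀ ∈ F ∨ v₀ ∈ ib D A F) ≤ 1 + 2 * k := by
    refine (wt_or hx).trans ?_
    rw [← hcovw, ← hentw]
    linarith
  have hent0 : ∀ w, 0 ≤ ent D A 𝓕 x w := fun w => Finset.sum_nonneg fun F _ => hx F
  -- cardinality of the region
  have hcard : ((reg D A X 𝓕 x k v₀).card : ℝ) ≤ A.card / 4 := by
    have h1 : ((reg D A X 𝓕 x k v₀).card : ℝ) * (1 / 2) ≤ ∑ w ∈ X, com D A 𝓕 x v₀ w := by
      calc ((reg D A X 𝓕 x k v₀).card : ℝ) * (1 / 2)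
          = ∑ _w ∈ reg D A X 𝓕 x k v₀, (1 / 2 : ℝ) := by
            rw [Finset.sum_const, nsmul_eq_mul]
        _ ≤ ∑ w ∈ reg D A X 𝓕 x k v₀, com D A 𝓕 x v₀ w :=
            Finset.sum_le_sum fun w hw => ((mem_reg D A X 𝓕 x k v₀ w).mp hw).2.1
        _ ≤ ∑ w ∈ X, com D A 𝓕 x v₀ w := by
            refine Finset.sum_le_sum_of_subset_of_nonneg ?_ fun w _ _ =>
              Finset.sum_nonneg fun F _ => hx F
            intro w hw
            exact ((mem_reg D A X 𝓕 x k v₀ w).mp hw).1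
    have h2 : ∑ w ∈ X, com D A 𝓕 x v₀ w =
        ∑ F ∈ 𝓕.filter (fun F => v₀ ∈ F ∨ v₀ ∈ ib D A F), ((F ∩ X).card : ℝ) * x F := by
      unfold com
      have h3 : ∀ w ∈ X, ∑ F ∈ 𝓕.filter (fun F => w ∈ F ∧ (v₀ ∈ F ∨ v₀ ∈ ib D A F)), x F =
          ∑ F ∈ 𝓕.filter (fun F => v₀ ∈ F ∨ v₀ ∈ ib D A F), if w ∈ F then x F else 0 := by
        intro w _
        rw [← Finset.sum_filter, Finset.filter_filter]
        refine Finset.sum_congr ?_ fun _ _ => rfl
        ext F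
        rw [Finset.mem_filter, Finset.mem_filter]
        tauto
      rw [Finset.sum_congr rfl h3, Finset.sum_comm]
      refine Finset.sum_congr rfl fun F _ => ?_
      rw [← Finset.sum_filter, Finset.sum_const, nsmul_eq_mul, Finset.inter_comm,
        Finset.filter_mem_eq_inter]
    have h4 : ∑ F ∈ 𝓕.filter (fun F => v₀ ∈ F ∨ v₀ ∈ ib D A F), ((F ∩ X).card : ℝ) * x F ≤
        ∑ F ∈ 𝓕.filter (fun F => v₀ ∈ F ∨ v₀ ∈ ib D A F),
          ((A.card : ℝ) / (8 * (1 + 2 * k))) * x F := by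
      refine Finset.sum_le_sum fun F hF => ?_
      refine mul_le_mul_of_nonneg_right ?_ (hx F)
      have hF' := (hbad F (Finset.mem_filter.mp hF).1).2.1
      have hpos : (0:ℝ) < 8 * (1 + 2 * k) := by positivity
      rw [le_div_iff₀ hpos]
      have h5 : ((F ∩ X).card : ℝ) ≤ F.card := by
        exact_mod_cast Finset.card_le_card Finset.inter_subset_left
      have h6 : (8 * (1 + 2 * (k:ℝ))) * F.card ≤ A.card := by exact_mod_cast hF'
      nlinarith
    rw [← Finset.mul_sum, wt_eq 𝓕 x] at h4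
    have h7 : (A.card : ℝ) / (8 * (1 + 2 * k)) *
        wt 𝓕 x (fun F => v₀ ∈ F ∨ v₀ ∈ ib D A F) ≤ A.card / 8 := by
      have hpos : (0:ℝ) < 1 + 2 * k := by positivity
      calc (A.card : ℝ) / (8 * (1 + 2 * k)) * wt 𝓕 x (fun F => v₀ ∈ F ∨ v₀ ∈ ib D A F)
          ≤ (A.card : ℝ) / (8 * (1 + 2 * k)) * (1 + 2 * k) :=
            mul_le_mul_of_nonneg_left hP0 (by positivity)
        _ = A.card / 8 := by field_simp
    linarith
  -- the invariant
  have hinv : ∀ u s, CR D X (ent D A 𝓕 x) v₀ u s → u ∈ A ∧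
      wt 𝓕 x (fun F => (u ∈ F ∨ u ∈ ib D A F) ∧ ¬ (v₀ ∈ F ∨ v₀ ∈ ib D A F)) ≤ s := by
    intro u s h
    induction h with
    | base =>
      refine ⟨hXA hv₀, le_of_eq (wt_false fun F _ h => h.2 h.1)⟩
    | @step u w s hCR hD hw ih =>
      refine ⟨hXA hw, ?_⟩
      have h1 : wt 𝓕 x (fun F => (w ∈ F ∨ w ∈ ib D A F) ∧ ¬ (v₀ ∈ F ∨ v₀ ∈ ib D A F)) ≤
          wt 𝓕 x (fun F => ((u ∈ F ∨ u ∈ ib D A F) ∧ ¬ (v₀ ∈ F ∨ v₀ ∈ ib D A F)) ∨
            w ∈ ib D A F) := by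
        refine wt_mono hx fun F hF h => ?_
        rcases h.1 with hwF | hwF
        · left
          refine ⟨?_, h.2⟩
          by_cases huF : u ∈ F
          · exact Or.inl huF
          · right
            rw [mem_ib]
            exact ⟨⟨ih.1, huF⟩, w, hwF, hD⟩
        · exact Or.inr hwF
      refine h1.trans ((wt_or hx).trans ?_)
      rw [← hentw w]
      linarith [ih.2]
  have hstep : ∀ u s w, CR D X (ent D A 𝓕 x) v₀ u s → s < 1 / 2 → D u w → w ∈ X →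
      w ∈ reg D A X 𝓕 x k v₀ := by
    intro u s w hCR hs hD hw
    obtain ⟨huA, hu⟩ := hinv u s hCR
    have h1 : wt 𝓕 x (fun F => w ∈ F ∧ ¬ (v₀ ∈ F ∨ v₀ ∈ ib D A F)) ≤ s := by
      refine (wt_mono hx fun F hF h => ?_).trans hu
      refine ⟨?_, h.2⟩
      by_cases huF : u ∈ F
      · exact Or.inl huF
      · right
        rw [mem_ib]
        exact ⟨⟨huA, huF⟩, w, h.1, hD⟩
    have h2 := wt_split (𝓕 := 𝓕) (x := x) (fun F => w ∈ F) (fun F => v₀ ∈ F ∨ v₀ ∈ ib D A F)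
    rw [← hcovw, ← hcomw] at h2
    have h3 := hcov w hw
    have h4 : com D A 𝓕 x v₀ w ≤ 1 + 2 * k := by
      rw [hcomw]
      exact (wt_mono hx fun F _ h => h.2).trans hP0
    rw [mem_reg]
    refine ⟨hw, by linarith, by linarith⟩
  have hbd : ∀ A₁ : Finset V, v₀ ∈ A₁ → A₁ ⊆ insert v₀ (reg D A X 𝓕 x k v₀) →
      (Δ : ℝ) / 4 ≤ ((bd D X A₁).card : ℝ) := by
    intro A₁ h0 h1
    have hregX : reg D A X 𝓕 x k v₀ ⊆ X := fun w hw => ((mem_reg D A X 𝓕 x k v₀ w).mp hw).1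
    have hA₁A : A₁ ⊆ A := h1.trans (Finset.insert_subset (hXA hv₀) (hregX.trans hXA))
    have hc1 : (A₁.card : ℝ) ≤ 1 + A.card / 4 := by
      have h2 : A₁.card ≤ (reg D A X 𝓕 x k v₀).card + 1 :=
        (Finset.card_le_card h1).trans (Finset.card_insert_le _ _)
      have h3 : (A₁.card : ℝ) ≤ (reg D A X 𝓕 x k v₀).card + 1 := by exact_mod_cast h2
      linarith
    have hA4' : (4:ℝ) ≤ A.card := by exact_mod_cast hA4
    have hc2 : (A₁.card : ℝ) ≤ A.card / 2 := by linarith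
    have hE' := hE A₁ hA₁A ⟨v₀, h0⟩
    have hle : A₁.card ≤ A.card := Finset.card_le_card hA₁A
    have hE2 : (Δ : ℝ) * ((A.card : ℝ) - A₁.card) ≤ (bd D A A₁).card * A.card := by
      have := hE'
      have h5 : ((Δ * (A.card - A₁.card) : ℕ) : ℝ) ≤ ((bd D A A₁).card * A.card : ℕ) := by
        exact_mod_cast this
      push_cast [Nat.cast_sub hle] at h5
      exact h5
    have hD0 : (0:ℝ) ≤ Δ := Nat.cast_nonneg _
    have h6 : (Δ : ℝ) / 2 ≤ (bd D A A₁).card := by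
      have h7 : (Δ : ℝ) * (A.card / 2) ≤ (bd D A A₁).card * A.card := by
        refine le_trans ?_ hE2
        exact mul_le_mul_of_nonneg_left (by linarith) hD0
      have hpos : (0:ℝ) < A.card := by linarith
      have h8 : (Δ : ℝ) / 2 * A.card ≤ (bd D A A₁).card * A.card := by linarith
      exact le_of_mul_le_mul_right h8 hpos
    have h9 : bd D A A₁ ⊆ bd D X A₁ ∪ G := by
      intro w hw
      rw [mem_bd] at hw
      rw [Finset.mem_union, mem_bd]
      by_cases hwG : w ∈ G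
      · exact Or.inr hwG
      · left
        refine ⟨⟨?_, hw.1.2⟩, hw.2⟩
        rw [hX, Finset.mem_sdiff]
        exact ⟨hw.1.1, hwG⟩
    have h10 : ((bd D A A₁).card : ℝ) ≤ (bd D X A₁).card + G.card := by
      exact_mod_cast (Finset.card_le_card h9).trans (Finset.card_union_le _ _)
    have h11 : (4:ℝ) * G.card ≤ Δ := by exact_mod_cast hG
    linarith
  have hfinal := hCOAR V D X (reg D A X 𝓕 x k v₀) (ent D A 𝓕 x) v₀ (1 / 2) (Δ / 4) hent0
    (by norm_num) (fun u s w h1 h2 h3 h4 => hstep u s w h1 h2 h3 h4) hbd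
  linarith

end Pool.Agent.CDS

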