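import Pool.Agent.CDS.Stmts
import Pool.Agent.LibTuza.Duality

/-!
# Module LPD: linear programming duality for coverings
-/

set_option autoImplicit false

namespace Pool.Agent.CDS

open Finset

namespace LPDX

/-- Sums over the subtype. -/
theorem sum_sub {V : Type} [DecidableEq V] (𝓕 : Finset (Finset V))
    (p : Finset V → Prop) [DecidablePred p] (w : {F // F ∈ 𝓕} → ℝ) (x : Finset V → ℝ)
    (hx : ∀ F : {F // F ∈ 𝓕}, x F.1 = w F) :
    ∑ F ∈ 𝓕.filter p, x F =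
      ∑ F ∈ (Finset.univ : Finset {F // F ∈ 𝓕}).filter (fun F => p F.1), w F := by
  rw [Finset.sum_filter, Finset.sum_filter, ← Finset.sum_coe_sort]
  refine Finset.sum_congr rfl (fun F _ => ?_)
  rw [hx F]

end LPDX

open LPDX in
/-- Module LPD. -/
theorem lpd_proof : Stmt_LPD := by
  intro V _ _ X 𝓕 hcov
  classical
  let S : V → Finset {F // F ∈ 𝓕} := fun v => Finset.univ.filter (fun F => v ∈ F.1)
  let K : Set ({F // F ∈ 𝓕} → ℝ) :=
    Set.Icc 0 1 ∩ {w | ∀ v ∈ X, 1 ≤ ∑ e ∈ S v, w e}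
  have hcont : ∀ T : Finset {F // F ∈ 𝓕},
      Continuous (fun w : {F // F ∈ 𝓕} → ℝ => ∑ e ∈ T, w e) := by
    intro T
    exact continuous_finsetSum _ (fun i _ => continuous_apply i)
  have hK : IsCompact K := by
    refine IsCompact.inter_right isCompact_Icc ?_
    have h1 : {w : {F // F ∈ 𝓕} → ℝ | ∀ v ∈ X, 1 ≤ ∑ e ∈ S v, w e} =
        ⋂ v ∈ X, {w : {F // F ∈ 𝓕} → ℝ | 1 ≤ ∑ e ∈ S v, w e} := by
      ext w
      simp
    rw [h1]
    refine isClosed_biInter (fun v _ => ?_)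
    exact isClosed_le continuous_const (hcont _)
  have hSne : ∀ v ∈ X, (S v).Nonempty := by
    intro v hv
    obtain ⟨F, hF, hvF⟩ := hcov v hv
    exact ⟨⟨F, hF⟩, Finset.mem_filter.mpr ⟨Finset.mem_univ _, hvF⟩⟩
  have hKne : K.Nonempty := by
    refine ⟨1, ⟨⟨fun _ => zero_le_one, fun _ => le_refl _⟩, ?_⟩⟩
    intro v hv
    have h2 : (1 : ℝ) ≤ ((S v).card : ℝ) := by
      exact_mod_cast (hSne v hv).card_pos
    simpa using h2
  obtain ⟨x0, hx0, hmin⟩ := hK.exists_isMinOn hKne (hcont Finset.univ).continuousOn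
  have hfeas : ∀ w : {F // F ∈ 𝓕} → ℝ, (∀ e, 0 ≤ w e) → (∀ i ∈ X, 1 ≤ ∑ e ∈ S i, w e) →
      ∑ e, x0 e ≤ ∑ e, w e := by
    intro w hw0 hw1
    have h1 : (fun e => min (w e) 1) ∈ K := by
      refine ⟨⟨fun e => le_min (hw0 e) zero_le_one, fun e => min_le_right _ _⟩, ?_⟩
      intro v hv
      by_cases hex : ∃ e ∈ S v, 1 ≤ w e
      · obtain ⟨e, he, h1e⟩ := hex
        have h2 : min (w e) 1 ≤ ∑ e ∈ S v, min (w e) 1 :=
          Finset.single_le_sum (f := fun e => min (w e) 1)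
            (fun i _ => le_min (hw0 i) zero_le_one) he
        rw [min_eq_right h1e] at h2
        exact h2
      · push Not at hex
        have h2 : ∑ e ∈ S v, min (w e) 1 = ∑ e ∈ S v, w e :=
          Finset.sum_congr rfl (fun e he => min_eq_left (hex e he).le)
        show 1 ≤ ∑ e ∈ S v, min (w e) 1
        rw [h2]
        exact hw1 v hv
    have h2 : ∑ e, x0 e ≤ ∑ e, min (w e) 1 := isMinOn_iff.mp hmin _ h1
    exact h2.trans (Finset.sum_le_sum (fun e _ => min_le_left _ _))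
  obtain ⟨y, hy0, _, hy1, hy2⟩ := Pool.Agent.LibTuza.lp_duality S X hSne (∑ e, x0 e) hfeas
  let x : Finset V → ℝ := fun F => if h : F ∈ 𝓕 then x0 ⟨F, h⟩ else 0
  have hx : ∀ F : {F // F ∈ 𝓕}, x F.1 = x0 F := by
    intro F
    show (if h : F.1 ∈ 𝓕 then x0 ⟨F.1, h⟩ else 0) = x0 F
    rw [dif_pos F.2]
  refine ⟨x, y, ?_, hy0, ?_, ?_, ?_⟩
  · intro F
    show 0 ≤ (if h : F ∈ 𝓕 then x0 ⟨F, h⟩ else 0)
    split_ifs with h
    · exact hx0.1.1 _
    · exact le_refl _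
  · intro v hv
    have h1 := sum_sub 𝓕 (fun F => v ∈ F) x0 x hx
    have h2 : (1 : ℝ) ≤ ∑ F ∈ S v, x0 F := hx0.2 v hv
    calc (1 : ℝ) ≤ ∑ F ∈ S v, x0 F := h2
      _ = _ := h1.symm
  · intro F hF
    have h1 := hy1 ⟨F, hF⟩
    have h2 : X.filter (fun i => (⟨F, hF⟩ : {F // F ∈ 𝓕}) ∈ S i) = F ∩ X := by
      ext i
      simp only [Finset.mem_filter, Finset.mem_inter, S, Finset.mem_univ, true_and]
      exact and_comm
    rw [h2] at h1
    exact h1
  · refine le_trans (le_of_eq ?_) hy2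
    rw [← Finset.sum_coe_sort]
    exact Finset.sum_congr rfl (fun F _ => hx F)

end Pool.Agent.CDS
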