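import Pool.Agent.CDS.Stmts

/-!
# MINU: a robust induced subdigraph
-/

set_option autoImplicit false

namespace Pool.Agent.CDS

open Finset

namespace MINUX

variable {V : Type} [Fintype V] [DecidableEq V]

/-- closed sets at the threshold `t` -/
def Cl (D : V → V → Prop) (t : ℕ) (W : Finset V) : Prop :=
  W.Nonempty ∧ ∀ v ∈ W, t ≤ (nb D v ∩ W).card

lemma map_nb (D : V → V → Prop) (U : Finset V) (v : {x // x ∈ U}) :
    (nb (fun x y : {x // x ∈ U} => D x.1 y.1) v).map (Function.Embedding.subtype _) =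
      nb D v.1 ∩ U := by
  ext w
  simp only [mem_map, mem_nb, Function.Embedding.subtype_apply, mem_inter]
  constructor
  · rintro ⟨a, ha, rfl⟩
    exact ⟨ha, a.2⟩
  · rintro ⟨h1, h2⟩
    exact ⟨⟨w, h2⟩, h1, rfl⟩

lemma map_nb_sdiff (D : V → V → Prop) (U : Finset V) (v : {x // x ∈ U}) (A : Finset {x // x ∈ U}) :
    (nb (fun x y : {x // x ∈ U} => D x.1 y.1) v \ A).map (Function.Embedding.subtype _) =
      (nb D v.1 ∩ U) \ A.map (Function.Embedding.subtype _) := by
  ext w
  simp only [mem_map, mem_nb, Function.Embedding.subtype_apply, mem_inter, mem_sdiff]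
  constructor
  · rintro ⟨a, ⟨ha, ha'⟩, rfl⟩
    refine ⟨⟨ha, a.2⟩, ?_⟩
    rintro ⟨b, hb, hba⟩
    exact ha' (Subtype.ext hba ▸ hb)
  · rintro ⟨⟨h1, h2⟩, h3⟩
    exact ⟨⟨w, h2⟩, ⟨h1, fun h => h3 ⟨⟨w, h2⟩, h, rfl⟩⟩, rfl⟩

end MINUX

open MINUX

/-- A digraph of minimum out-degree `Δ q` on fewer than `2 ^ q` vertices contains a `Δ`-robust
induced subdigraph. -/
theorem minu_proof : Stmt_MINU := by
  classical
  intro V _ _ D Δ q hV hq hD
  have hex : ∀ i, ∃ n, ∃ W : Finset V, Cl D (Δ * (q - i)) W ∧ W.card = n := by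
    intro i
    refine ⟨_, univ, ⟨univ_nonempty, fun v _ => ?_⟩, rfl⟩
    rw [inter_univ]
    exact (Nat.mul_le_mul_left _ (Nat.sub_le q i)).trans (hD v)
  let s : ℕ → ℕ := fun i => Nat.find (hex i)
  have hs : ∀ i, ∃ W : Finset V, Cl D (Δ * (q - i)) W ∧ W.card = s i := fun i =>
    Nat.find_spec (hex i)
  have hmin : ∀ i (W : Finset V), Cl D (Δ * (q - i)) W → s i ≤ W.card := fun i W hW =>
    Nat.find_min' (hex i) ⟨W, hW, rfl⟩
  have hkey : ∃ i < q, s i < 2 * s (i + 1) := by
    by_contra hc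
    push Not at hc
    have h1 : ∀ i, i ≤ q → 2 ^ i * s i ≤ s 0 := by
      intro i
      induction i with
      | zero => intro _; simp
      | succ i ih =>
        intro hi
        have h2 := ih (by omega)
        have h3 := hc i (by omega)
        calc 2 ^ (i + 1) * s (i + 1) = 2 ^ i * (2 * s (i + 1)) := by ring
          _ ≤ 2 ^ i * s i := Nat.mul_le_mul_left _ h3
          _ ≤ s 0 := h2
    have h2 := h1 q le_rfl
    have h3 : 1 ≤ s q := by
      obtain ⟨W, hW, hc⟩ := hs q
      rw [← hc]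
      exact hW.1.card_pos
    have h4 : s 0 ≤ Fintype.card V := by
      obtain ⟨W, hW, hc⟩ := hs 0
      rw [← hc]
      exact card_le_univ W
    have h5 : 2 ^ q ≤ 2 ^ q * s q := Nat.le_mul_of_pos_right _ h3
    omega
  obtain ⟨i, hi, hlt⟩ := hkey
  obtain ⟨U, ⟨hU1, hU2⟩, hUc⟩ := hs i
  refine ⟨U, hU1, ?_, ?_⟩
  · intro v
    rw [← card_map (Function.Embedding.subtype _), map_nb]
    refine le_trans ?_ (hU2 v.1 v.2)
    exact Nat.le_mul_of_pos_right _ (by omega)
  · intro A hA hAc
    rw [Fintype.card_coe, hUc] at hAc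
    have hAlt : (A.map (Function.Embedding.subtype _)).card < s (i + 1) := by
      rw [card_map]; omega
    have hn : ¬ Cl D (Δ * (q - (i + 1))) (A.map (Function.Embedding.subtype _)) := fun h =>
      absurd (hmin _ _ h) (not_le.2 hAlt)
    have hne : (A.map (Function.Embedding.subtype _)).Nonempty := hA.map
    have : ∃ v ∈ A.map (Function.Embedding.subtype _),
        (nb D v ∩ A.map (Function.Embedding.subtype _)).card < Δ * (q - (i + 1)) := by
      by_contra hc
      push Not at hc
      exact hn ⟨hne, hc⟩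
    obtain ⟨v, hv, hvc⟩ := this
    obtain ⟨a, ha, rfl⟩ := mem_map.1 hv
    refine ⟨a, ha, ?_⟩
    rw [← card_map (Function.Embedding.subtype _), map_nb_sdiff]
    have h1 := hU2 a.1 a.2
    have h2 := card_sdiff_add_card_inter (nb D a.1 ∩ U) (A.map (Function.Embedding.subtype _))
    have h3 : ((nb D a.1 ∩ U) ∩ A.map (Function.Embedding.subtype _)).card ≤
        (nb D a.1 ∩ A.map (Function.Embedding.subtype _)).card :=
      card_le_card (inter_subset_inter_right inter_subset_left)
    have h4 : Δ * (q - i) = Δ * (q - (i + 1)) + Δ := by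
      have : q - i = (q - (i + 1)) + 1 := by omega
      rw [this, Nat.mul_add, Nat.mul_one]
    have h5 : (nb D ((Function.Embedding.subtype fun x => x ∈ U) a) ∩
      A.map (Function.Embedding.subtype _)).card =
      (nb D a.1 ∩ A.map (Function.Embedding.subtype _)).card := rfl
    rw [h5] at hvc
    omega

end Pool.Agent.CDS
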