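import Pool.Agent.CDS.Stmts

/-! CDS, module ORB: orbits of an injective partial map. Text: /team-store/MP_b1d27d_CDS.md. -/

set_option autoImplicit false

namespace Pool.Agent.CDS

namespace ORBX

/-- cancellation of iterates -/
theorem cancel {V : Type} (W T : Finset V) (φ : V → V)
    (hinj : ∀ w ∈ W, w ∉ T → ∀ w' ∈ W, w' ∉ T → φ w = φ w' → w = w') :
    ∀ (n : ℕ) (x y : V), (∀ m < n, φ^[m] x ∈ W ∧ φ^[m] x ∉ T) →
      (∀ m < n, φ^[m] y ∈ W ∧ φ^[m] y ∉ T) → φ^[n] x = φ^[n] y → x = y := by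
  intro n
  induction n with
  | zero => intro x y _ _ h; exact h
  | succ n ih =>
    intro x y hx hy h
    rw [Function.iterate_succ_apply', Function.iterate_succ_apply'] at h
    have h1 := hinj _ (hx n (Nat.lt_succ_self n)).1 (hx n (Nat.lt_succ_self n)).2 _
      (hy n (Nat.lt_succ_self n)).1 (hy n (Nat.lt_succ_self n)).2 h
    exact ih x y (fun m hm => hx m (by omega)) (fun m hm => hy m (by omega)) h1

/-- two orbits: equality of two points, the first index being smaller -/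
theorem key {V : Type} (W T : Finset V) (φ : V → V)
    (hinj : ∀ w ∈ W, w ∉ T → ∀ w' ∈ W, w' ∉ T → φ w = φ w' → w = w')
    (x y : V) (hx : ∀ w ∈ W, w ∉ T → x ≠ φ w) (n n' : ℕ) (hn : n ≤ n')
    (h1 : ∀ m < n, φ^[m] x ∈ W ∧ φ^[m] x ∉ T) (h2 : ∀ m < n', φ^[m] y ∈ W ∧ φ^[m] y ∉ T)
    (h : φ^[n] x = φ^[n'] y) : n = n' ∧ x = y := by
  have e : n' = n + (n' - n) := by omega
  rw [e, Function.iterate_add_apply] at h
  have h3 := cancel W T φ hinj n x (φ^[n' - n] y) h1 (fun m hm => by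
    rw [← Function.iterate_add_apply]
    exact h2 _ (by omega)) h
  by_cases hnn : n = n'
  · refine ⟨hnn, ?_⟩
    rw [h3, hnn, Nat.sub_self]
    rfl
  · exfalso
    have e2 : n' - n = (n' - n - 1) + 1 := by omega
    rw [e2, Function.iterate_succ_apply'] at h3
    exact hx _ (h2 (n' - n - 1) (by omega)).1 (h2 (n' - n - 1) (by omega)).2 h3

end ORBX

open ORBX in
theorem orb_proof : Stmt_ORB := by
  intro V i1 i2 D W T B k φ ψ h1 h2 h3 h4 h5
  classical
  -- the stopping time
  let N : V → ℕ → ℕ := fun b i => sInf {n | φ^[n] (ψ b i) ∈ T}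
  have hlt : ∀ b i m, m < N b i → φ^[m] (ψ b i) ∉ T := fun b i m hm => Nat.notMem_of_lt_sInf hm
  have hW : ∀ b ∈ B, ∀ i, i < k → ∀ m, (∀ m' < m, φ^[m'] (ψ b i) ∉ T) → φ^[m] (ψ b i) ∈ W := by
    intro b hb i hi m
    induction m with
    | zero => intro _; exact (h2 b hb i hi).1
    | succ m ih =>
      intro hm
      rw [Function.iterate_succ_apply']
      exact (h1 _ (ih (fun m' hm' => hm m' (by omega))) (hm m (by omega))).1
  have hne : ∀ b ∈ B, ∀ i, i < k → {n | φ^[n] (ψ b i) ∈ T}.Nonempty := by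
    intro b hb i hi
    by_contra hcon
    have hall : ∀ n, φ^[n] (ψ b i) ∉ T := by
      intro n hn
      exact hcon ⟨n, hn⟩
    have hallW : ∀ n, φ^[n] (ψ b i) ∈ W := fun n => hW b hb i hi n (fun m _ => hall m)
    obtain ⟨n, n', hnn, he⟩ := Finite.exists_ne_map_eq_of_infinite (fun n : ℕ => φ^[n] (ψ b i))
    have he' : φ^[n] (ψ b i) = φ^[n'] (ψ b i) := he
    rcases Nat.lt_or_ge n n' with hl | hl
    · have := key W T φ h3 (ψ b i) (ψ b i) (h5 b hb i hi) n n' hl.le
        (fun m _ => ⟨hallW m, hall m⟩) (fun m _ => ⟨hallW m, hall m⟩) he'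
      omega
    · have := key W T φ h3 (ψ b i) (ψ b i) (h5 b hb i hi) n' n hl
        (fun m _ => ⟨hallW m, hall m⟩) (fun m _ => ⟨hallW m, hall m⟩) he'.symm
      omega
  have hT : ∀ b ∈ B, ∀ i, i < k → φ^[N b i] (ψ b i) ∈ T := fun b hb i hi =>
    Nat.sInf_mem (hne b hb i hi)
  have hWN : ∀ b ∈ B, ∀ i, i < k → ∀ m ≤ N b i, φ^[m] (ψ b i) ∈ W := fun b hb i hi m hm =>
    hW b hb i hi m (fun m' hm' => hlt b i m' (by omega))
  have hWT : ∀ b ∈ B, ∀ i, i < k → ∀ m < N b i, φ^[m] (ψ b i) ∈ W ∧ φ^[m] (ψ b i) ∉ T :=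
    fun b hb i hi m hm => ⟨hWN b hb i hi m hm.le, hlt b i m hm⟩
  have hmain : ∀ b ∈ B, ∀ i, i < k → ∀ b' ∈ B, ∀ j, j < k → ∀ n ≤ N b i, ∀ n' ≤ N b' j,
      φ^[n] (ψ b i) = φ^[n'] (ψ b' j) → n = n' ∧ (b, i) = (b', j) := by
    intro b hb i hi b' hb' j hj n hn n' hn' he
    rcases Nat.le_total n n' with hl | hl
    · obtain ⟨e1, e2⟩ := key W T φ h3 (ψ b i) (ψ b' j) (h5 b hb i hi) n n' hl
        (fun m hm => hWT b hb i hi m (by omega)) (fun m hm => hWT b' hb' j hj m (by omega)) he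
      exact ⟨e1, h4 b hb i hi b' hb' j hj e2⟩
    · obtain ⟨e1, e2⟩ := key W T φ h3 (ψ b' j) (ψ b i) (h5 b' hb' j hj) n' n hl
        (fun m hm => hWT b' hb' j hj m (by omega)) (fun m hm => hWT b hb i hi m (by omega)) he.symm
      exact ⟨e1.symm, (h4 b' hb' j hj b hb i hi e2).symm⟩
  let P : V → ℕ → List V := fun b i => (List.range (N b i + 1)).map (fun n => φ^[n] (ψ b i))
  have hP : ∀ b i, P b i = (List.range (N b i)).map (fun n => φ^[n] (ψ b i)) ++
      [φ^[N b i] (ψ b i)] := by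
    intro b i
    show (List.range (N b i + 1)).map (fun n => φ^[n] (ψ b i)) = _
    rw [List.range_succ, List.map_append, List.map_singleton]
  have hmem : ∀ b i w, w ∈ P b i → ∃ n ≤ N b i, w = φ^[n] (ψ b i) := by
    intro b i w hw
    obtain ⟨n, hn, rfl⟩ := List.mem_map.1 hw
    exact ⟨n, by have := List.mem_range.1 hn; omega, rfl⟩
  refine ⟨P, ?_, ?_, ?_, ?_, ?_, ?_, ?_⟩
  · intro b _ i _
    rw [hP]
    simp
  · intro b hb i hi w hw
    obtain ⟨n, hn, rfl⟩ := hmem b i w hw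
    exact hWN b hb i hi n hn
  · intro b hb i hi
    have e : b :: P b i = (List.range (N b i + 1 + 1)).map
        (fun n => Nat.casesOn n b (fun m => φ^[m] (ψ b i))) := by
      rw [List.range_succ_eq_map, List.map_cons, List.map_map]
      rfl
    rw [e, List.isChain_map, List.isChain_range_succ]
    intro m hm
    cases m with
    | zero => exact (h2 b hb i hi).2
    | succ m =>
      show D (φ^[m] (ψ b i)) (φ^[m + 1] (ψ b i))
      have hm' : m < N b i := by omega
      have hmm := hWT b hb i hi m hm'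
      rcases (h1 _ hmm.1 hmm.2).2 with h | h
      · rw [Function.iterate_succ_apply']; exact h
      · exfalso
        rw [← Function.iterate_succ_apply' φ] at h
        have := hmain b hb i hi b hb i hi (m + 1) (by omega) m (by omega) h
        omega
  · intro b hb i hi w hw
    rw [hP, List.getLast?_append] at hw
    simp only [List.getLast?_singleton, Option.some_or, Option.some.injEq] at hw
    rw [← hw]
    exact hT b hb i hi
  · intro b _ i _ w hw
    rw [hP, List.dropLast_concat] at hw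
    obtain ⟨n, hn, rfl⟩ := List.mem_map.1 hw
    exact hlt b i n (List.mem_range.1 hn)
  · intro b hb i hi
    refine List.Nodup.map_on ?_ List.nodup_range
    intro n hn n' hn' he
    have hn1 := List.mem_range.1 hn
    have hn2 := List.mem_range.1 hn'
    exact (hmain b hb i hi b hb i hi n (by omega) n' (by omega) he).1
  · intro b hb i hi b' hb' j hj hne' w hw hw'
    obtain ⟨n, hn, rfl⟩ := hmem b i w hw
    obtain ⟨n', hn', he⟩ := hmem b' j _ hw'
    exact hne' (hmain b hb i hi b' hb' j hj n hn n' hn' he).2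

end Pool.Agent.CDS
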