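import Pool.Agent.CDS.Stmts

set_option autoImplicit false

namespace Pool.Agent.CDS

open Finset

namespace POTX

theorem bd_self {V : Type} [Fintype V] [DecidableEq V] (D : V → V → Prop) (S : Finset V) :
    (bd D S S).card = 0 := by
  rw [Finset.card_eq_zero, Finset.eq_empty_iff_forall_notMem]
  intro w hw
  rw [mem_bd] at hw
  exact hw.1.2 hw.1.1

theorem bd_sub {V : Type} [Fintype V] [DecidableEq V] (D : V → V → Prop) (S A A' : Finset V)
    (hA' : A' ⊆ A) : bd D S A' ⊆ bd D A A' ∪ bd D S A := by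
  intro w hw
  rw [mem_bd] at hw
  rw [Finset.mem_union, mem_bd, mem_bd]
  obtain ⟨⟨h1, h2⟩, a, ha, hd⟩ := hw
  by_cases hwA : w ∈ A
  · exact Or.inl ⟨⟨hwA, h2⟩, a, ha, hd⟩
  · exact Or.inr ⟨⟨h1, hwA⟩, a, hA' ha, hd⟩

/-- The potential. -/
noncomputable def phi {V : Type} [Fintype V] [DecidableEq V] (D : V → V → Prop) (S : Finset V)
    (Δ : ℕ) (A : Finset V) : ℝ :=
  (Δ : ℝ) * Real.log (A.card : ℝ) + ((bd D S A).card : ℝ)

theorem log_card_le {V : Type} (S : Finset V) (q : ℕ) (hS : S.Nonempty) (h : S.card < 2 ^ q) :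
    Real.log (S.card : ℝ) ≤ (q : ℝ) := by
  have hpos : (0 : ℝ) < (S.card : ℝ) := by exact_mod_cast hS.card_pos
  have h1 : (S.card : ℝ) ≤ (2 : ℝ) ^ q := by exact_mod_cast h.le
  have h2 : Real.log (S.card : ℝ) ≤ Real.log ((2 : ℝ) ^ q) := Real.log_le_log hpos h1
  rw [Real.log_pow] at h2
  have h3 : Real.log 2 ≤ 1 := by
    have := Real.log_le_sub_one_of_pos (show (0 : ℝ) < 2 by norm_num)
    linarith
  have h4 : (q : ℝ) * Real.log 2 ≤ (q : ℝ) * 1 :=
    mul_le_mul_of_nonneg_left h3 (Nat.cast_nonneg q)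
  linarith

theorem log_diff {a b : ℝ} (ha : 0 < a) (hb : 0 < b) :
    1 - b / a ≤ Real.log a - Real.log b := by
  have h := Real.log_le_sub_one_of_pos (div_pos hb ha)
  rw [Real.log_div hb.ne' ha.ne'] at h
  linarith

end POTX

open POTX in
theorem pot_proof : Stmt_POT := by
  intro V _ _ D S Δ q hS hq
  classical
  have hne : ((S.powerset).filter (fun A => A.Nonempty)).Nonempty := by
    refine ⟨S, ?_⟩
    rw [Finset.mem_filter, Finset.mem_powerset]
    exact ⟨subset_rfl, hS⟩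
  obtain ⟨A, hA, hmin⟩ := Finset.exists_min_image _ (phi D S Δ) hne
  rw [Finset.mem_filter, Finset.mem_powerset] at hA
  obtain ⟨hAS, hAne⟩ := hA
  have hApos : (0 : ℝ) < (A.card : ℝ) := by exact_mod_cast hAne.card_pos
  refine ⟨A, hAS, hAne, ?_, ?_⟩
  · have h1 : phi D S Δ A ≤ phi D S Δ S := by
      apply hmin
      rw [Finset.mem_filter, Finset.mem_powerset]
      exact ⟨subset_rfl, hS⟩
    unfold phi at h1
    rw [bd_self] at h1
    have h2 : 0 ≤ (Δ : ℝ) * Real.log (A.card : ℝ) := by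
      apply mul_nonneg (Nat.cast_nonneg Δ)
      apply Real.log_nonneg
      exact_mod_cast hAne.card_pos
    have h3 : (Δ : ℝ) * Real.log (S.card : ℝ) ≤ (Δ : ℝ) * (q : ℝ) :=
      mul_le_mul_of_nonneg_left (log_card_le S q hS hq) (Nat.cast_nonneg Δ)
    have h4 : ((bd D S A).card : ℝ) ≤ ((Δ * q : ℕ) : ℝ) := by
      push_cast
      push_cast at h1
      linarith
    exact_mod_cast h4
  · intro A' hA' hA'ne
    have hA'pos : (0 : ℝ) < (A'.card : ℝ) := by exact_mod_cast hA'ne.card_pos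
    have h1 : phi D S Δ A ≤ phi D S Δ A' := by
      apply hmin
      rw [Finset.mem_filter, Finset.mem_powerset]
      exact ⟨hA'.trans hAS, hA'ne⟩
    unfold phi at h1
    have h2 : ((bd D S A').card : ℝ) ≤ ((bd D A A').card : ℝ) + ((bd D S A).card : ℝ) := by
      have := (Finset.card_le_card (bd_sub D S A A' hA')).trans (Finset.card_union_le _ _)
      exact_mod_cast this
    have h3 : (Δ : ℝ) * (1 - (A'.card : ℝ) / (A.card : ℝ)) ≤
        (Δ : ℝ) * (Real.log (A.card : ℝ) - Real.log (A'.card : ℝ)) :=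
      mul_le_mul_of_nonneg_left (log_diff hApos hA'pos) (Nat.cast_nonneg Δ)
    have h4 : (Δ : ℝ) * (1 - (A'.card : ℝ) / (A.card : ℝ)) ≤ ((bd D A A').card : ℝ) := by
      have h5 : (Δ : ℝ) * (Real.log (A.card : ℝ) - Real.log (A'.card : ℝ)) =
        (Δ : ℝ) * Real.log (A.card : ℝ) - (Δ : ℝ) * Real.log (A'.card : ℝ) := by ring
      linarith
    have h6 : (Δ : ℝ) * (1 - (A'.card : ℝ) / (A.card : ℝ)) * (A.card : ℝ) ≤
        ((bd D A A').card : ℝ) * (A.card : ℝ) :=
      mul_le_mul_of_nonneg_right h4 hApos.le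
    have h7 : (Δ : ℝ) * (1 - (A'.card : ℝ) / (A.card : ℝ)) * (A.card : ℝ) =
        (Δ : ℝ) * ((A.card : ℝ) - (A'.card : ℝ)) := by
      field_simp
    rw [h7] at h6
    have h8 : A'.card ≤ A.card := Finset.card_le_card hA'
    have h9 : ((Δ * (A.card - A'.card) : ℕ) : ℝ) ≤ (((bd D A A').card * A.card : ℕ) : ℝ) := by
      push_cast [Nat.cast_sub h8]
      exact h6
    exact_mod_cast h9

end Pool.Agent.CDS
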