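import Pool.Agent.CDS.Stmts

/-!
# CDS, module RANK: percolation to a set of at least half of the vertices
-/

set_option autoImplicit false

namespace Pool.Agent.CDS

open Finset

namespace RANKX

theorem aux {V : Type} [Fintype V] [DecidableEq V] (D : V → V → Prop) (Δ : ℕ)
    (hD : Robust D Δ) : ∀ (n : ℕ) (X : Finset V), Xᶜ.card = n → Fintype.card V ≤ 2 * X.card →
    ∃ rk : V → ℕ, (∀ v ∈ X, rk v = 0) ∧
      ∀ v, v ∉ X → Δ ≤ ((nb D v).filter (fun u => rk u < rk v)).card := by
  intro n
  induction n with
  | zero =>
    intro X hX _
    refine ⟨fun _ => 0, fun _ _ => rfl, fun v hv => ?_⟩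
    rw [Finset.card_eq_zero] at hX
    have : v ∈ Xᶜ := Finset.mem_compl.2 hv
    rw [hX] at this
    exact absurd this (Finset.notMem_empty v)
  | succ n ih =>
    intro X hX hcard
    have hne : Xᶜ.Nonempty := by
      rw [← Finset.card_pos, hX]
      omega
    have hc : X.card + Xᶜ.card = Fintype.card V := Finset.card_add_card_compl X
    obtain ⟨v, hv, hΔ⟩ := hD.2 Xᶜ hne (by omega)
    rw [Finset.mem_compl] at hv
    have h1 : (insert v X)ᶜ.card = n := by
      have h2 : (insert v X).card + (insert v X)ᶜ.card = Fintype.card V :=
        Finset.card_add_card_compl _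
      have h3 : (insert v X).card = X.card + 1 := Finset.card_insert_of_notMem hv
      omega
    obtain ⟨rk', h0, hrk⟩ := ih (insert v X) h1 (by
      rw [Finset.card_insert_of_notMem hv]
      omega)
    refine ⟨fun u => if u ∈ X then 0 else if u = v then 1 else rk' u + 1, fun u hu => ?_, ?_⟩
    · simp [hu]
    · intro u hu
      by_cases huv : u = v
      · subst huv
        refine hΔ.trans (Finset.card_le_card ?_)
        intro w hw
        rw [Finset.mem_sdiff, Finset.mem_compl, not_not] at hw
        rw [Finset.mem_filter]
        refine ⟨hw.1, ?_⟩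
        simp [hw.2, hu]
      · have hu' : u ∉ insert v X := by
          rw [Finset.mem_insert]
          tauto
        refine (hrk u hu').trans (Finset.card_le_card ?_)
        intro w hw
        rw [Finset.mem_filter] at hw ⊢
        refine ⟨hw.1, ?_⟩
        have h2 := hw.2
        simp only [hu, huv, if_false]
        by_cases hwX : w ∈ X
        · simp [hwX]
        · by_cases hwv : w = v
          · have h3 : rk' w = 0 := h0 w (by rw [hwv]; exact Finset.mem_insert_self _ _)
            simp only [hwv, hv, if_false, if_true]
            omega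
          · simp only [hwX, hwv, if_false]
            omega

end RANKX

theorem rank_proof : Stmt_RANK := by
  intro V _ _ D Δ X hD hX
  obtain ⟨rk, _, h⟩ := RANKX.aux D Δ hD _ X rfl hX
  exact ⟨rk, h⟩

end Pool.Agent.CDS
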