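import Pool.Agent.CDS.ASSM
import Pool.Agent.CDS.COAR
import Pool.Agent.CDS.DBL
import Pool.Agent.CDS.EMB
import Pool.Agent.CDS.GOOD
import Pool.Agent.CDS.HALL
import Pool.Agent.CDS.HSTEP
import Pool.Agent.CDS.LAB
import Pool.Agent.CDS.LINK
import Pool.Agent.CDS.LOC
import Pool.Agent.CDS.LPD
import Pool.Agent.CDS.MINU
import Pool.Agent.CDS.ORB
import Pool.Agent.CDS.POT
import Pool.Agent.CDS.RANK
import Pool.Agent.CDS.CAT
import Pool.Agent.CDS.CORE
import Pool.Agent.CDS.COMP
import Pool.Agent.CDS.AsmA
import Pool.Agent.CDS.AsmB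

set_option autoImplicit false

namespace Pool.Agent.CDS

/-- Every digraph of minimum out-degree at least `8192 r ^ 8 (log m + 1) ^ 4` contains a
subdivision of the complete digraph on `r` vertices. -/
theorem mainC : Stmt_MAIN :=
  main_proof minu_proof (core_proof lab_proof (hstep_proof rank_proof)) pot_proof
    (good_proof lpd_proof (loc_proof coar_proof) dbl_proof) hall_proof orb_proof link_proof
    assm_proof

/-- The final theorem. -/
theorem finC : Stmt_FIN := fin_proof mainC emb_proof (comp_proof cat_proof)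

end Pool.Agent.CDS
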