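import Mathlib

/-!
# Definitions for: polylogarithmic minimum out-degree forces all subdivisions (MP_b1d27d_co)

Digraphs are relations `D : V → V → Prop` on a finite type.
-/

set_option autoImplicit false

namespace Pool.Agent.CDS

open Finset

/-- The out-neighbourhood of `v` in the digraph `D`. -/
noncomputable def nb {V : Type} [Fintype V] (D : V → V → Prop) (v : V) : Finset V := by
  classical exact Finset.univ.filter (fun w => D v w)

/-- The out-boundary of `A` inside `W`: the vertices of `W` outside `A` which have an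
in-neighbour in `A`. -/
noncomputable def bd {V : Type} [Fintype V] [DecidableEq V] (D : V → V → Prop)
    (W A : Finset V) : Finset V := by
  classical exact (W \ A).filter (fun w => ∃ a ∈ A, D a w)

/-- The in-boundary of `F` inside `A`: the vertices of `A` outside `F` which have an
out-neighbour in `F`. -/
noncomputable def ib {V : Type} [Fintype V] [DecidableEq V] (D : V → V → Prop)
    (A F : Finset V) : Finset V := by
  classical exact (A \ F).filter (fun w => ∃ y ∈ F, D w y)

/-- `Δ`-robust digraphs: all out-degrees are at least `Δ`, and every nonempty set of at most half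
of the vertices contains a vertex with at least `Δ` out-neighbours outside the set. -/
def Robust {V : Type} [Fintype V] [DecidableEq V] (D : V → V → Prop) (Δ : ℕ) : Prop :=
  (∀ v, Δ ≤ (nb D v).card) ∧
  ∀ A : Finset V, A.Nonempty → 2 * A.card ≤ Fintype.card V → ∃ v ∈ A, Δ ≤ (nb D v \ A).card

/-- `b` can be reached from `v` by a nonempty directed path whose vertices after `v` are all
in `W`. -/
def RW {V : Type} (D : V → V → Prop) (W : Finset V) (v b : V) : Prop :=
  Relation.TransGen (fun x y => D x y ∧ y ∈ W) v b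

/-- Some set of at most `m` vertices contains, for every `v`, a vertex that can be reached from
`v` through `W`. -/
def Hit {V : Type} (D : V → V → Prop) (W : Finset V) (m : ℕ) : Prop :=
  ∃ R : Finset V, R.card ≤ m ∧ ∀ v : V, ∃ b ∈ R, RW D W v b

/-- `A` expands: every nonempty subset `A'` has at least `Δ (1 - |A'| / |A|)` boundary vertices
inside `A`. -/
def Expd {V : Type} [Fintype V] [DecidableEq V] (D : V → V → Prop) (A : Finset V)
    (Δ : ℕ) : Prop :=
  ∀ A' : Finset V, A' ⊆ A → A'.Nonempty → Δ * (A.card - A'.card) ≤ (bd D A A').card * A.card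

/-- `F` is a bad subset of `A`: small, and with at most `k` in-boundary vertices. -/
def Bad {V : Type} [Fintype V] [DecidableEq V] (D : V → V → Prop) (A : Finset V)
    (k : ℕ) (F : Finset V) : Prop :=
  F ⊆ A ∧ 8 * (1 + 2 * k) * F.card ≤ A.card ∧ (ib D A F).card ≤ k

/-- `z` lies in no bad subset of `A`. -/
def Good {V : Type} [Fintype V] [DecidableEq V] (D : V → V → Prop) (A : Finset V)
    (k : ℕ) (z : V) : Prop :=
  ∀ F : Finset V, Bad D A k F → z ∉ F

/-- The total weight of the sets of `𝓕` containing `v`. -/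
noncomputable def cov {V : Type} [DecidableEq V] (𝓕 : Finset (Finset V))
    (x : Finset V → ℝ) (v : V) : ℝ :=
  ∑ F ∈ 𝓕.filter (fun F => v ∈ F), x F

/-- The total weight of the sets of `𝓕` having `v` in their in-boundary. -/
noncomputable def ent {V : Type} [Fintype V] [DecidableEq V] (D : V → V → Prop)
    (A : Finset V) (𝓕 : Finset (Finset V)) (x : Finset V → ℝ) (v : V) : ℝ :=
  ∑ F ∈ 𝓕.filter (fun F => v ∈ ib D A F), x F

/-- The total weight of the sets of `𝓕` containing `w` and having `v₀` as an element or in their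
in-boundary. -/
noncomputable def com {V : Type} [Fintype V] [DecidableEq V] (D : V → V → Prop)
    (A : Finset V) (𝓕 : Finset (Finset V)) (x : Finset V → ℝ) (v₀ w : V) : ℝ :=
  ∑ F ∈ 𝓕.filter (fun F => w ∈ F ∧ (v₀ ∈ F ∨ v₀ ∈ ib D A F)), x F

/-- The region of `v₀`. -/
noncomputable def reg {V : Type} [Fintype V] [DecidableEq V] (D : V → V → Prop)
    (A X : Finset V) (𝓕 : Finset (Finset V)) (x : Finset V → ℝ) (k : ℕ) (v₀ : V) :
    Finset V := by
  classical exact X.filter (fun w => 1 / 2 ≤ com D A 𝓕 x v₀ w ∧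
    cov 𝓕 x w ≤ 2 * (k : ℝ) + 3 / 2)

/-- Vertices reachable from `v₀` through `X` with their costs: the cost of a path is the sum of
`e` over its vertices after `v₀`. -/
inductive CR {V : Type} (D : V → V → Prop) (X : Finset V) (e : V → ℝ) (v₀ : V) :
    V → ℝ → Prop
  | base : CR D X e v₀ v₀ 0
  | step {u x : V} {s : ℝ} : CR D X e v₀ u s → D u x → x ∈ X → CR D X e v₀ x (s + e x)

/-- `A` contains no vertex of `W ∩ T`. -/
def Adm {V : Type} (W T A : Finset V) : Prop := ∀ v ∈ A, v ∈ W → v ∉ T

/-- The cut condition: `B` can be linked with multiplicity `k`, through `W`, to `T`. -/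
def Linkable {V : Type} [Fintype V] [DecidableEq V] (D : V → V → Prop)
    (W T : Finset V) (k : ℕ) (B : Finset V) : Prop :=
  ∀ A : Finset V, Adm W T A → k * (B ∩ A).card ≤ (bd D W A).card

/-- `P b i` for `b ∈ B` and `i < k` are directed paths (without the starting vertex `b`) through
`W` from `b` to `T`, pairwise vertex-disjoint; only the last vertex is in `T`. -/
structure Linkage {V : Type} (D : V → V → Prop)
    (W T B : Finset V) (k : ℕ) (P : V → ℕ → List V) : Prop where
  ne : ∀ b ∈ B, ∀ i, i < k → P b i ≠ []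
  sub : ∀ b ∈ B, ∀ i, i < k → ∀ w ∈ P b i, w ∈ W
  chain : ∀ b ∈ B, ∀ i, i < k → List.IsChain D (b :: P b i)
  last : ∀ b ∈ B, ∀ i, i < k → ∀ w, (P b i).getLast? = some w → w ∈ T
  int : ∀ b ∈ B, ∀ i, i < k → ∀ w ∈ (P b i).dropLast, w ∉ T
  nodup : ∀ b ∈ B, ∀ i, i < k → (P b i).Nodup
  disj : ∀ b ∈ B, ∀ i, i < k → ∀ b' ∈ B, ∀ j, j < k → (b, i) ≠ (b', j) →
    ∀ w ∈ P b i, w ∉ P b' j

/-- `D` contains a subdivision of `F` all of whose subdivision paths have length at least
`lam`. -/
def Sub {V' V : Type} (F : V' → V' → Prop) (D : V → V → Prop) (lam : ℕ) : Prop :=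
  ∃ f : V' → V, Function.Injective f ∧ ∃ P : V' → V' → List V,
    (∀ a b, F a b →
      (P a b).head? = some (f a) ∧ (P a b).getLast? = some (f b) ∧ (P a b).Nodup ∧
      lam + 1 ≤ (P a b).length ∧ List.IsChain D (P a b) ∧
      (∀ x, f x ∈ P a b → x = a ∨ x = b)) ∧
    (∀ a b c d, F a b → F c d → (a, b) ≠ (c, d) →
      ∀ v, v ∈ P a b → v ∈ P c d → ∃ x, f x = v)

theorem mem_nb {V : Type} [Fintype V] (D : V → V → Prop) (v w : V) :
    w ∈ nb D v ↔ D v w := by
  classical
  simp [nb]

theorem mem_bd {V : Type} [Fintype V] [DecidableEq V] (D : V → V → Prop) (W A : Finset V)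
    (w : V) : w ∈ bd D W A ↔ (w ∈ W ∧ w ∉ A) ∧ ∃ a ∈ A, D a w := by
  classical
  simp [bd]

theorem mem_ib {V : Type} [Fintype V] [DecidableEq V] (D : V → V → Prop) (A F : Finset V)
    (w : V) : w ∈ ib D A F ↔ (w ∈ A ∧ w ∉ F) ∧ ∃ y ∈ F, D w y := by
  classical
  simp [ib]

theorem mem_reg {V : Type} [Fintype V] [DecidableEq V] (D : V → V → Prop)
    (A X : Finset V) (𝓕 : Finset (Finset V)) (x : Finset V → ℝ) (k : ℕ) (v₀ w : V) :
    w ∈ reg D A X 𝓕 x k v₀ ↔ w ∈ X ∧ 1 / 2 ≤ com D A 𝓕 x v₀ w ∧
      cov 𝓕 x w ≤ 2 * (k : ℝ) + 3 / 2 := by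
  classical
  simp [reg]

end Pool.Agent.CDS
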