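import Pool.Agent.CDS.Defs

/-!
# Statements of the modules (MP_b1d27d_co, squad CDS)
-/

set_option autoImplicit false

namespace Pool.Agent.CDS

open Finset

/-- A digraph of minimum out-degree `Δ q` on fewer than `2 ^ q` vertices contains a `Δ`-robust
induced subdigraph. -/
def Stmt_MINU : Prop :=
  ∀ (V : Type) [Fintype V] [DecidableEq V] (D : V → V → Prop) (Δ q : ℕ), Nonempty V →
    Fintype.card V < 2 ^ q → (∀ v, Δ * q ≤ (nb D v).card) →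
    ∃ U : Finset V, U.Nonempty ∧ Robust (fun x y : {x // x ∈ U} => D x.1 y.1) Δ

/-- Percolation: a rank function for reaching a set `X` of at least half of the vertices. -/
def Stmt_RANK : Prop :=
  ∀ (V : Type) [Fintype V] [DecidableEq V] (D : V → V → Prop) (Δ : ℕ) (X : Finset V),
    Robust D Δ → Fintype.card V ≤ 2 * X.card →
    ∃ rk : V → ℕ, ∀ v, v ∉ X → Δ ≤ ((nb D v).filter (fun u => rk u < rk v)).card

/-- The labelling lemma (union bound; the test `t` may look at the set of vertices whose labels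
are in `P t`, and asks for a vertex of label in `P t` or of label `l t`). -/
def Stmt_LAB : Prop :=
  ∀ (V Λ 𝒯 : Type) [Fintype V] [DecidableEq V] [Fintype Λ] [DecidableEq Λ] [Fintype 𝒯]
    (P : 𝒯 → Finset Λ) (l : 𝒯 → Λ) (H : 𝒯 → Finset V → Finset V) (h : ℕ), Nonempty Λ →
    (∀ t, l t ∉ P t) → (∀ t W, h ≤ (H t W).card) →
    Fintype.card 𝒯 * (Fintype.card Λ - 1) ^ h < Fintype.card Λ ^ h →
    ∃ f : V → Λ, ∀ t, ∃ u ∈ H t (Finset.univ.filter (fun v => f v ∈ P t)),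
      f u ∈ P t ∨ f u = l t

/-- The deterministic step: from `W` one can compute test sets `H W v` of size at least `Δ` such
that any larger `W'` meeting all of them has a hitting set of half the size. -/
def Stmt_HSTEP : Prop :=
  ∀ (V : Type) [Fintype V] [DecidableEq V] (D : V → V → Prop) (Δ : ℕ), Nonempty V →
    Robust D Δ →
    ∃ H : Finset V → V → Finset V, (∀ W v, Δ ≤ (H W v).card) ∧ (∀ W v, H W v ⊆ nb D v) ∧
      ∀ (W W' : Finset V) (j : ℕ), W ⊆ W' → Hit D W (2 ^ (j + 1)) →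
        (∀ v, ∃ u ∈ H W v, u ∈ W') → Hit D W' (2 ^ j)

/-- The core property of random colour classes: in each class, even after the deletion of `ρ`
vertices, some vertex can be reached from everywhere. -/
def Stmt_CORE : Prop :=
  ∀ (V ι : Type) [Fintype V] [DecidableEq V] [Fintype ι] [DecidableEq ι] (D : V → V → Prop)
    (Δ ρ q : ℕ), Nonempty V → Nonempty ι → Fintype.card V < 2 ^ q → Robust D Δ →
    (Fintype.card ι * (q + 1)) * (q * (ρ + 1) + Fintype.card ι * (q + 1)) + ρ ≤ Δ →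
    ∃ χ : V → ι, ∀ c : ι, ∀ Q : Finset V, Q.card ≤ ρ →
      ∃ b : V, ∀ v : V, RW D ((Finset.univ.filter (fun x => χ x = c)) \ Q) v b

/-- The minimiser of the potential `Δ log |A| + |boundary|`. -/
def Stmt_POT : Prop :=
  ∀ (V : Type) [Fintype V] [DecidableEq V] (D : V → V → Prop) (S : Finset V) (Δ q : ℕ),
    S.Nonempty → S.card < 2 ^ q →
    ∃ A : Finset V, A ⊆ S ∧ A.Nonempty ∧ (bd D S A).card ≤ Δ * q ∧ Expd D A Δ

/-- LP duality for covering `X` by sets of the family `𝓕`. -/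
def Stmt_LPD : Prop :=
  ∀ (V : Type) [Fintype V] [DecidableEq V] (X : Finset V) (𝓕 : Finset (Finset V)),
    (∀ v ∈ X, ∃ F ∈ 𝓕, v ∈ F) →
    ∃ (x : Finset V → ℝ) (y : V → ℝ), (∀ F, 0 ≤ x F) ∧ (∀ v, 0 ≤ y v) ∧
      (∀ v ∈ X, 1 ≤ ∑ F ∈ 𝓕.filter (fun F => v ∈ F), x F) ∧
      (∀ F ∈ 𝓕, ∑ v ∈ F ∩ X, y v ≤ 1) ∧
      ∑ F ∈ 𝓕, x F ≤ ∑ v ∈ X, y v

/-- The coarea inequality. -/
def Stmt_COAR : Prop :=
  ∀ (V : Type) [Fintype V] [DecidableEq V] (D : V → V → Prop) (X R : Finset V) (e : V → ℝ)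
    (v₀ : V) (τ c : ℝ), (∀ x, 0 ≤ e x) → 0 < τ →
    (∀ u s x, CR D X e v₀ u s → s < τ → D u x → x ∈ X → x ∈ R) →
    (∀ A : Finset V, v₀ ∈ A → A ⊆ insert v₀ R → c ≤ ((bd D X A).card : ℝ)) →
    c * τ ≤ ∑ x ∈ R, e x

/-- The local estimate: the entrance weight of the region of a typical vertex is large. -/
def Stmt_LOC : Prop :=
  ∀ (V : Type) [Fintype V] [DecidableEq V] (D : V → V → Prop) (A X G : Finset V)
    (𝓕 : Finset (Finset V)) (x : Finset V → ℝ) (k Δ : ℕ) (v₀ : V),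
    4 ≤ A.card → 4 * G.card ≤ Δ → Expd D A Δ → X = A \ G →
    (∀ F ∈ 𝓕, Bad D A k F) → (∀ F, 0 ≤ x F) → (∀ v ∈ X, 1 ≤ cov 𝓕 x v) → v₀ ∈ X →
    cov 𝓕 x v₀ ≤ 1 → ent D A 𝓕 x v₀ ≤ 2 * (k : ℝ) →
    (Δ : ℝ) / 8 ≤ ∑ w ∈ reg D A X 𝓕 x k v₀, ent D A 𝓕 x w

/-- The double counting. -/
def Stmt_DBL : Prop :=
  ∀ (V : Type) [Fintype V] [DecidableEq V] (D : V → V → Prop) (A X : Finset V)
    (𝓕 : Finset (Finset V)) (x : Finset V → ℝ) (y : V → ℝ) (k : ℕ), X ⊆ A →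
    (∀ F ∈ 𝓕, Bad D A k F) → (∀ F, 0 ≤ x F) → (∀ v, 0 ≤ y v) →
    (∀ v ∈ X, ∃ F ∈ 𝓕, v ∈ F) → (∀ F ∈ 𝓕, ∑ v ∈ F ∩ X, y v ≤ 1) →
    ∑ v₀ ∈ X, y v₀ * ∑ w ∈ reg D A X 𝓕 x k v₀, ent D A 𝓕 x w ≤
      2 * (1 + (k : ℝ)) * (2 * (k : ℝ) + 3 / 2) * (k : ℝ) * ∑ F ∈ 𝓕, x F

/-- Many vertices of an expanding set are good. -/
def Stmt_GOOD : Prop :=
  ∀ (V : Type) [Fintype V] [DecidableEq V] (D : V → V → Prop) (A G : Finset V) (k Δ : ℕ),
    1 ≤ k → 2 ≤ A.card → 64 * k * (k + 1) ^ 2 ≤ Δ → Expd D A Δ →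
    (∀ z ∈ A, Good D A k z → z ∈ G) → Δ < 4 * G.card

/-- Hall's theorem: the cut condition gives an injective successor function. -/
def Stmt_HALL : Prop :=
  ∀ (V : Type) [Fintype V] [DecidableEq V] (D : V → V → Prop) (W T B : Finset V) (k : ℕ),
    Disjoint B W → Linkable D W T k B →
    ∃ (φ : V → V) (ψ : V → ℕ → V),
      (∀ w ∈ W, w ∉ T → φ w ∈ W ∧ (D w (φ w) ∨ φ w = w)) ∧
      (∀ b ∈ B, ∀ i, i < k → ψ b i ∈ W ∧ D b (ψ b i)) ∧
      (∀ w ∈ W, w ∉ T → ∀ w' ∈ W, w' ∉ T → φ w = φ w' → w = w') ∧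
      (∀ b ∈ B, ∀ i, i < k → ∀ b' ∈ B, ∀ j, j < k → ψ b i = ψ b' j → (b, i) = (b', j)) ∧
      (∀ b ∈ B, ∀ i, i < k → ∀ w ∈ W, w ∉ T → ψ b i ≠ φ w)

/-- Following the successor function gives disjoint paths. -/
def Stmt_ORB : Prop :=
  ∀ (V : Type) [Fintype V] [DecidableEq V] (D : V → V → Prop) (W T B : Finset V) (k : ℕ)
    (φ : V → V) (ψ : V → ℕ → V),
    (∀ w ∈ W, w ∉ T → φ w ∈ W ∧ (D w (φ w) ∨ φ w = w)) →
    (∀ b ∈ B, ∀ i, i < k → ψ b i ∈ W ∧ D b (ψ b i)) →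
    (∀ w ∈ W, w ∉ T → ∀ w' ∈ W, w' ∉ T → φ w = φ w' → w = w') →
    (∀ b ∈ B, ∀ i, i < k → ∀ b' ∈ B, ∀ j, j < k → ψ b i = ψ b' j → (b, i) = (b', j)) →
    (∀ b ∈ B, ∀ i, i < k → ∀ w ∈ W, w ∉ T → ψ b i ≠ φ w) →
    ∃ P : V → ℕ → List V, Linkage D W T B k P

/-- The cut condition in the reversed digraph: `r` paths can be linked into each good vertex of
`Z` from the `r ^ 2` vertices of `T`. -/
def Stmt_LINK : Prop :=
  ∀ (V : Type) [Fintype V] [DecidableEq V] (D : V → V → Prop) (S A Z T : Finset V)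
    (r s ρ k Δ : ℕ), 1 ≤ r → k = r ^ 2 + r → 8 * (1 + 2 * k) * k ≤ Δ → k + s ≤ ρ →
    A ⊆ S → (bd D S A).card ≤ s → Expd D A Δ → Z ⊆ A → Z.card = r →
    (∀ z ∈ Z, Good D A k z) → Disjoint T S → T.card = r ^ 2 →
    (∀ Q : Finset V, Q.card ≤ ρ → ∃ b : V, ∀ v : V, RW D (S \ Q) v b) →
    Linkable (fun u v => D v u) ((S \ Z) ∪ T) T r Z

/-- Assembling the subdivision of the complete digraph from the linkage and the connecting
classes. -/
def Stmt_ASSM : Prop :=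
  ∀ (V : Type) [Fintype V] [DecidableEq V] (D : V → V → Prop) (r : ℕ) (S Z : Finset V)
    (U : Fin r × Fin r → Finset V) (b : Fin r × Fin r → V) (P : V → ℕ → List V),
    Z ⊆ S → Z.card = r → (∀ c, Disjoint (U c) S) → (∀ c c', c ≠ c' → Disjoint (U c) (U c')) →
    (∀ c, b c ∈ U c) → (∀ c v, RW D (U c) v (b c)) →
    Linkage (fun u v => D v u) ((S \ Z) ∪ Finset.univ.image b) (Finset.univ.image b) Z r P →
    Sub (fun x y : Fin r => x ≠ y) D 1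

/-- The complete digraph on `n + n ^ 2 λ` vertices contains the subdivision of `F` with all
paths of length `λ + 1`. -/
def Stmt_EMB : Prop :=
  ∀ (n lam : ℕ) (F : Fin n → Fin n → Prop), (∀ a, ¬ F a a) →
    Sub F (fun x y : Fin (n + n ^ 2 * lam) => x ≠ y) (lam + 1)

/-- Concatenation of subdivision paths along a path. -/
def Stmt_CAT : Prop :=
  ∀ (V₁ V₂ : Type) (E : V₁ → V₁ → Prop) (D : V₂ → V₂ → Prop) (lam : ℕ) (g : V₁ → V₂)
    (P : V₁ → V₁ → List V₂), Function.Injective g →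
    (∀ a b, E a b →
      (P a b).head? = some (g a) ∧ (P a b).getLast? = some (g b) ∧ (P a b).Nodup ∧
      lam + 1 ≤ (P a b).length ∧ List.IsChain D (P a b) ∧
      (∀ x, g x ∈ P a b → x = a ∨ x = b)) →
    (∀ a b c d, E a b → E c d → (a, b) ≠ (c, d) →
      ∀ v, v ∈ P a b → v ∈ P c d → ∃ x, g x = v) →
    ∀ L : List V₁, L ≠ [] → L.Nodup → List.IsChain E L →
      ∃ M : List V₂, M.head? = L.head?.map g ∧ M.getLast? = L.getLast?.map g ∧ M.Nodup ∧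
        (L.length - 1) * lam + 1 ≤ M.length ∧ List.IsChain D M ∧
        ∀ v ∈ M, (∃ x ∈ L, v = g x) ∨
          ∃ x y, E x y ∧ [x, y] <:+: L ∧ v ∈ P x y

/-- Composition of subdivisions. -/
def Stmt_COMP : Prop :=
  ∀ (V₀ V₁ V₂ : Type) (F : V₀ → V₀ → Prop) (E : V₁ → V₁ → Prop) (D : V₂ → V₂ → Prop)
    (l₁ l₂ : ℕ), (∀ a, ¬ F a a) → (∀ a, ¬ E a a) → Sub F E l₁ → Sub E D l₂ →
    Sub F D (l₁ * l₂)

/-- The main theorem: complete digraphs. -/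
def Stmt_MAIN : Prop :=
  ∀ (r m : ℕ) (D : Fin m → Fin m → Prop), 0 < m →
    (∀ v, 8192 * r ^ 8 * (Nat.log 2 m + 1) ^ 4 ≤ (nb D v).card) →
    Sub (fun x y : Fin r => x ≠ y) D 1

/-- The final theorem: all digraphs and all prescribed lengths, in the language of the frozen
statement. -/
def Stmt_FIN : Prop :=
  ∀ (n lam : ℕ) (F : Fin n → Fin n → Prop) (ℓ : Fin n → Fin n → ℕ), (∀ a, ¬ F a a) →
    (∀ a b, ℓ a b ≤ lam + 1) →
    ∀ (m : ℕ) (D : Fin m → Fin m → Prop), 0 < m → (∀ v, ¬ D v v) →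
      (∀ v, 8192 * (n + n ^ 2 * lam) ^ 8 * (Nat.log 2 m + 1) ^ 4 ≤
        Set.ncard {w : Fin m | D v w}) →
      ∃ f : Fin n → Fin m, Function.Injective f ∧ ∃ P : Fin n → Fin n → List (Fin m),
        (∀ a b, F a b →
          (P a b).head? = some (f a) ∧ (P a b).getLast? = some (f b) ∧ (P a b).Nodup ∧
          ℓ a b + 1 ≤ (P a b).length ∧
          (∀ (i : ℕ) (u w : Fin m), (P a b)[i]? = some u → (P a b)[i+1]? = some w → D u w) ∧
          (∀ x, f x ∈ P a b → x = a ∨ x = b)) ∧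
        (∀ a b c d, F a b → F c d → (a, b) ≠ (c, d) →
          ∀ v, v ∈ P a b → v ∈ P c d → ∃ x, f x = v)

end Pool.Agent.CDS
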